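import Pool.Agent.V7H20.PK.DetK
import Pool.Agent.TH766.HP.Two

/-!
# Relations between two elements of a number field
-/

set_option autoImplicit false

namespace Pool.Agent.V7H20.PK

open Polynomial IsDedekindDomain NumberField
open Pool.Agent.TH766.HP (Nice Cls Rich nice_finite nice_cls nice_padic Cls_mono int_mem_Cls
  cls_closed core)
open Pool.Agent.H527R9.CC (PadicLoc)

/-- evaluation of a polynomial in two variables through `φ`: the inner variable takes the value
`a`, the outer variable takes the value `b` -/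
noncomputable def ev2 {K k : Type} [Field K] [Field k] (φ : K →+* k) (a b : k) : K[X][X] →+* k :=
  eval₂RingHom (eval₂RingHom φ a) b

/-- The fibre over `(a, b)` of the family of closed subschemes of projective space over the plane,
given by the polynomials `F j (a, b; y)` (homogeneous in `y`), has a point over `k`, for
`φ : K → k`. -/
def HasPt2 {K k : Type} [Field K] [Field k] (φ : K →+* k) {n r : ℕ}
    (F : Fin r → MvPolynomial (Fin n) K[X][X]) (a b : k) : Prop :=
  ∃ y : Fin n → k, y ≠ 0 ∧ ∀ j, MvPolynomial.eval₂ (ev2 φ a b) y (F j) = 0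

/-- The fibre over `(a, b)` has points over all completions of the number field `K`: over `ℝ` for
all real embeddings, over `ℂ` for all complex embeddings, and over the completions at all finite
places. -/
def LocSol2 {K : Type} [Field K] [NumberField K] {n r : ℕ}
    (F : Fin r → MvPolynomial (Fin n) K[X][X]) (a b : K) : Prop :=
  (∀ φ : K →+* ℝ, HasPt2 φ F (φ a) (φ b)) ∧ (∀ φ : K →+* ℂ, HasPt2 φ F (φ a) (φ b)) ∧
  ∀ v : HeightOneSpectrum (𝓞 K), HasPt2 (algebraMap K (v.adicCompletion K)) F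
    (algebraMap K (v.adicCompletion K) a) (algebraMap K (v.adicCompletion K) b)

/-- all the polynomials are homogeneous (in `y`) -/
def Homog2 {K : Type} [Field K] {n r : ℕ} (F : Fin r → MvPolynomial (Fin n) K[X][X]) : Prop :=
  ∀ j, ∃ d : ℕ, (F j).IsHomogeneous d

/-- the Hasse principle over `K` holds for all fibres outside some curve `G(a, b) = 0` -/
def Hasse2 {K : Type} [Field K] [NumberField K] {n r : ℕ}
    (F : Fin r → MvPolynomial (Fin n) K[X][X]) : Prop :=
  ∃ G : K[X][X], G ≠ 0 ∧ ∀ a b : K, ev2 (RingHom.id K) a b G ≠ 0 → LocSol2 F a b →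
    HasPt2 (RingHom.id K) F a b

/-- locally constant at the points outside the curve `G = 0`, for the topology of `K ⊗ ℝ` -/
def InfConst2 {K : Type} [Field K] (G : K[X][X]) (D : Set (K × K)) : Prop :=
  ∀ x : K × K, ev2 (RingHom.id K) x.1 x.2 G ≠ 0 → ∃ ε : ℝ, 0 < ε ∧ ∀ y : K × K,
    (∀ φ : K →+* ℂ, ‖φ (y.1 - x.1)‖ < ε ∧ ‖φ (y.2 - x.2)‖ < ε) → (y ∈ D ↔ x ∈ D)

/-- locally constant at the points outside the curve `G = 0`, for the `v`-adic topology -/
def AdicConst2 {K : Type} [Field K] [NumberField K] (v : HeightOneSpectrum (𝓞 K)) (G : K[X][X])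
    (D : Set (K × K)) : Prop :=
  ∀ x : K × K, ev2 (RingHom.id K) x.1 x.2 G ≠ 0 → ∃ γ : WithZero (Multiplicative ℤ), γ ≠ 0 ∧
    ∀ y : K × K, v.valuation K (y.1 - x.1) < γ → v.valuation K (y.2 - x.2) < γ →
      (y ∈ D ↔ x ∈ D)

/-- the place lies above a prime of `Q` -/
def Above {K : Type} [Field K] [NumberField K] (Q : Set ℕ) (v : HeightOneSpectrum (𝓞 K)) : Prop :=
  ∃ p : ℕ, p.Prime ∧ p ∈ Q ∧ (p : 𝓞 K) ∈ v.asIdeal

/-- The Boolean algebra of relations between two elements of `K` generated by the relations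
`V_{a,b}(K) ≠ ∅` for the families over the plane satisfying the Hasse principle outside a curve,
by the local conditions at single finite places, and by the conjunctions of local conditions at the
infinite places and at all the finite places not above `Q` (all of them locally constant outside
one curve). -/
inductive Alg2 (K : Type) [Field K] [NumberField K] (Q : Set ℕ) : Set (K × K) → Prop
  | family {n r : ℕ} (F : Fin r → MvPolynomial (Fin n) K[X][X]) (hF : Homog2 F) (h : Hasse2 F) :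
      Alg2 K Q {x | HasPt2 (RingHom.id K) F x.1 x.2}
  | adic (v : HeightOneSpectrum (𝓞 K)) (G : K[X][X]) (hG : G ≠ 0) (D : Set (K × K))
      (h : AdicConst2 v G D) : Alg2 K Q D
  | loc (G : K[X][X]) (hG : G ≠ 0) (R : Set (K × K)) (P : HeightOneSpectrum (𝓞 K) → Set (K × K))
      (hR : InfConst2 G R) (hP : ∀ v, AdicConst2 v G (P v)) :
      Alg2 K Q {x | x ∈ R ∧ ∀ v, ¬ Above Q v → x ∈ P v}
  | compl (D : Set (K × K)) (h : Alg2 K Q D) : Alg2 K Q Dᶜ
  | inter (D E : Set (K × K)) (hD : Alg2 K Q D) (hE : Alg2 K Q E) : Alg2 K Q (D ∩ E)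

variable {K : Type} [Field K] [NumberField K]

theorem ev2_eq {k : Type} [Field k] (φ : K →+* k) (a : k) (b : K) :
    ev2 φ a (φ b) = (ev φ a).comp (evalRingHom (C b)) := by
  apply Polynomial.ringHom_ext
  · intro c
    simp [ev2, ev]
  · simp [ev2, ev]

/-- the restriction of a family to a horizontal line -/
noncomputable def slice {n r : ℕ} (F : Fin r → MvPolynomial (Fin n) K[X][X]) (b : K) :
    Fin r → MvPolynomial (Fin n) K[X] := fun j => MvPolynomial.map (evalRingHom (C b)) (F j)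

theorem hasPt_slice {k : Type} [Field k] (φ : K →+* k) {n r : ℕ}
    (F : Fin r → MvPolynomial (Fin n) K[X][X]) (a : k) (b : K) :
    HasPt2 φ F a (φ b) ↔ HasPt φ (slice F b) a := by
  unfold HasPt2 HasPt slice
  refine exists_congr fun y => and_congr_right fun _ => forall_congr' fun j => ?_
  rw [MvPolynomial.eval₂_map, ev2_eq]

theorem homog_slice {n r : ℕ} (F : Fin r → MvPolynomial (Fin n) K[X][X]) (hF : Homog2 F) (b : K) :
    Homog (slice F b) := fun j => by
  obtain ⟨d, hd⟩ := hF j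
  exact ⟨d, hd.map _⟩

/-- the exceptional horizontal lines -/
theorem lines (G : K[X][X]) (hG : G ≠ 0) : ∃ B : Set K, B.Finite ∧ ∀ b, b ∉ B →
    {a : ℚ | ev2 (RingHom.id K) (a : K) b G = 0}.Finite := by
  refine ⟨{b | G.eval (C b) = 0}, ?_, fun b hb => ?_⟩
  · have h1 := Polynomial.finite_setOfPred_isRoot hG
    refine (h1.preimage (f := fun b : K => (C b : K[X])) (C_injective.injOn)).subset ?_
    intro b hb
    exact hb
  · have h1 : G.eval (C b) ≠ 0 := hb
    refine (finite_zeros (RingHom.id K) _ h1).subset ?_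
    intro a ha
    have h2 : ev2 (RingHom.id K) (a : K) b G = 0 := ha
    have h3 := ev2_eq (RingHom.id K) (a : K) b
    simp only [RingHom.id_apply] at h3
    rw [h3, RingHom.comp_apply] at h2
    exact h2

theorem det_slice (Q : Set ℕ) (D : Set (K × K)) (hD : Alg2 K Q D) : ∃ B : Set K, B.Finite ∧
    ∀ b, b ∉ B → Det Q {a : ℚ | ((a : K), b) ∈ D} := by
  induction hD with
  | family F hF h =>
    obtain ⟨G, hG, hH⟩ := h
    obtain ⟨B, hB, hlines⟩ := lines G hG
    refine ⟨B, hB, fun b hb => ?_⟩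
    have h1 : {a : ℚ | ((a : K), b) ∈ {x : K × K | HasPt2 (RingHom.id K) F x.1 x.2}} =
        {a : ℚ | HasPt (RingHom.id K) (slice F b) (a : K)} := by
      ext a
      exact hasPt_slice (RingHom.id K) F (a : K) b
    rw [h1]
    refine Det.family _ (homog_slice F hF b) ?_
    intro a0 b0 hb0
    refine ⟨a0, b0, hb0, dvd_rfl, by simp, (hlines b hb).subset ?_⟩
    rintro a ⟨-, ⟨⟨hl1, hl2⟩, hl3⟩, hno⟩
    by_contra hne
    apply hno
    refine (hasPt_slice (RingHom.id K) F (a : K) b).1 (hH a b hne ⟨fun φ => ?_, fun φ => ?_,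
      fun v => ?_⟩)
    · rw [map_ratCast]
      exact (hasPt_slice φ F (a : ℝ) b).2 (hl1 φ)
    · rw [map_ratCast]
      exact (hasPt_slice φ F (a : ℂ) b).2 (hl2 φ)
    · rw [map_ratCast]
      exact (hasPt_slice (toC v) F (a : v.adicCompletion K) b).2 (hl3 v)
  | adic v G hG D h =>
    obtain ⟨B, hB, hlines⟩ := lines G hG
    obtain ⟨p, hp, hpv⟩ := exists_prime v
    have hpF : Fact p.Prime := ⟨hp⟩
    refine ⟨B, hB, fun b hb => Det.of_nice (nice_padic Q p hp _ ⟨_, hlines b hb,
      fun a ha => ?_⟩)⟩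
    obtain ⟨γ, hγ, h1⟩ := h ((a : K), b) ha
    obtain ⟨ε, hε, h2⟩ := val_rat_lt v hpv γ hγ
    refine ⟨ε, hε, fun y hy => h1 ((y : K), b) ?_ ?_⟩
    · have := h2 (y - a) hy
      push_cast at this
      exact this
    · simp only [sub_self, map_zero]
      exact zero_lt_iff.2 hγ
  | loc G hG R P hR hP =>
    obtain ⟨B, hB, hlines⟩ := lines G hG
    refine ⟨B, hB, fun b hb => Det.of_nice ⟨{a : ℚ | ((a : K), b) ∈ R},
      fun p => {a : ℚ | ∀ v : HeightOneSpectrum (𝓞 K), (p : 𝓞 K) ∈ v.asIdeal → ¬ Above Q v →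
        ((a : K), b) ∈ P v}, _, 1, 0, ∅, hlines b hb, one_ne_zero, by simp, ?_, ?_, ?_, ?_⟩⟩
    · intro x _
      constructor
      · rintro ⟨h1, h2⟩
        exact ⟨h1, fun p _ v _ hv => h2 v hv⟩
      · rintro ⟨h1, h2⟩
        refine ⟨h1, fun v hv => ?_⟩
        obtain ⟨p, hp, hpv⟩ := exists_prime v
        exact h2 p hp v hpv hv
    · intro x hx
      obtain ⟨ε, hε, h1⟩ := hR ((x : K), b) hx
      obtain ⟨δ, hδ, hδε⟩ := exists_rat_btwn hε
      refine ⟨δ, by exact_mod_cast hδ, fun y hy => h1 ((y : K), b) fun φ => ⟨?_, ?_⟩⟩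
      · have e : φ ((y : K) - (x : K)) = (((y - x : ℚ) : ℝ) : ℂ) := by
          rw [map_sub, map_ratCast, map_ratCast]
          push_cast
          rfl
        change ‖φ ((y : K) - (x : K))‖ < ε
        rw [e, Complex.norm_real, Real.norm_eq_abs]
        have : |((y - x : ℚ) : ℝ)| < δ := by exact_mod_cast hy
        exact this.trans hδε
      · simp only [sub_self, map_zero, norm_zero]
        exact hε
    · intro p hp x hx hxP
      have hpF : Fact p.Prime := ⟨hp⟩
      have h1 : ∃ v : HeightOneSpectrum (𝓞 K), (p : 𝓞 K) ∈ v.asIdeal ∧ ¬ Above Q v ∧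
          ((x : K), b) ∉ P v := by
        by_contra hcon
        push Not at hcon
        exact hxP fun v hv hQ => hcon v hv hQ
      obtain ⟨v, hv, hQ, hxv⟩ := h1
      obtain ⟨γ, hγ, h2⟩ := hP v ((x : K), b) hx
      obtain ⟨ε, hε, h3⟩ := val_rat_lt v hv γ hγ
      refine ⟨ε, hε, fun y hy hyP => hxv ?_⟩
      refine (h2 ((y : K), b) ?_ ?_).1 (hyP v hv hQ)
      · have := h3 (y - x) hy
        push_cast at this
        exact this
      · simp only [sub_self, map_zero]
        exact zero_lt_iff.2 hγ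
    · intro p hpF hpQ _ _ M _ _ _ n m _
      exact ⟨0, fun k _ v hv hQ => absurd ⟨p, hpF.out, hpQ, hv⟩ hQ⟩
  | compl D _ ih =>
    obtain ⟨B, hB, h⟩ := ih
    exact ⟨B, hB, fun b hb => Det.compl (h b hb)⟩
  | inter D E _ _ ihD ihE =>
    obtain ⟨B, hB, h⟩ := ihD
    obtain ⟨B', hB', h'⟩ := ihE
    exact ⟨B ∪ B', hB.union hB', fun b hb =>
      Det.inter (h b fun hh => hb (Or.inl hh)) (h' b fun hh => hb (Or.inr hh))⟩

/-- integrality at the primes outside `Q` -/
theorem ring_det (Q : Set ℕ) :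
    Det Q {x : ℚ | ∀ p : ℕ, p.Prime → p ∉ Q → padicNorm p x ≤ 1} := by
  refine Det.of_nice (Pool.Agent.TH766.HP.nice_loc Q _ ⟨Set.univ, fun p => {x | padicNorm p x ≤ 1},
    ∅, Set.finite_empty, ?_, ?_, ?_⟩)
  · intro x _
    exact ⟨1, one_pos, fun y _ => by simp⟩
  · intro p hp x _
    have : Fact p.Prime := ⟨hp⟩
    refine ⟨1, one_pos, fun y hy => ⟨fun h => ?_, fun h => ?_⟩⟩
    · have h1 : x = y + -(y - x) := by ring
      show padicNorm p x ≤ 1
      rw [h1]
      refine padicNorm.nonarchimedean.trans (max_le h ?_)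
      rw [padicNorm.neg]
      exact hy.le
    · have h1 : y = x + (y - x) := by ring
      show padicNorm p y ≤ 1
      rw [h1]
      exact padicNorm.nonarchimedean.trans (max_le h hy.le)
  · ext x
    simp

/-- there is a place above every prime -/
theorem exists_place (p : ℕ) (hp : p.Prime) :
    ∃ v : HeightOneSpectrum (𝓞 K), (p : 𝓞 K) ∈ v.asIdeal := by
  have hne : Ideal.span {(p : 𝓞 K)} ≠ ⊤ := by
    intro h
    have h1 : Ideal.absNorm (Ideal.span {(p : 𝓞 K)}) = 1 := by rw [h]; exact Ideal.absNorm_top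
    have h3 : Algebra.norm ℤ ((p : ℕ) : 𝓞 K) = (p : ℤ) ^ Module.finrank ℤ (𝓞 K) := by
      have := Algebra.norm_algebraMap (S := 𝓞 K) (p : ℤ)
      simpa using this
    rw [Ideal.absNorm_span_singleton, h3, Int.natAbs_pow, Int.natAbs_natCast] at h1
    have h4 : Module.finrank ℤ (𝓞 K) ≠ 0 := by
      rw [RingOfIntegers.rank]
      exact Module.finrank_pos.ne'
    rcases pow_eq_one_iff.1 h1 with h5 | h5
    · exact hp.one_lt.ne' h5
    · exact h4 h5
  obtain ⟨m, hm, hle⟩ := Ideal.exists_le_maximal _ hne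
  have hpm : (p : 𝓞 K) ∈ m := hle (Ideal.subset_span rfl)
  refine ⟨⟨m, hm.isPrime, ?_⟩, hpm⟩
  rintro rfl
  rw [Ideal.mem_bot] at hpm
  exact hp.ne_zero (by exact_mod_cast hpm)

/-- the valuations above `p` of a rational number with a pole at `p` -/
theorem val_gt_one (v : HeightOneSpectrum (𝓞 K)) {p : ℕ} [hpF : Fact p.Prime]
    (hv : (p : 𝓞 K) ∈ v.asIdeal) (x : ℚ) (hx : 1 < padicNorm p x) :
    1 < v.valuation K (x : K) := by
  have hx0 : x ≠ 0 := by
    rintro rfl
    rw [padicNorm.zero] at hx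
    linarith
  have hpp : (0 : ℚ) < p := by exact_mod_cast hpF.out.pos
  have h1 : padicNorm p ((p : ℚ)⁻¹ * x⁻¹) ≤ 1 := by
    have hlt : 0 < padicNorm p x := by linarith
    obtain ⟨n, hn⟩ := padicNorm.values_discrete hx0 (p := p)
    have hp1 : (1 : ℚ) < p := by exact_mod_cast hpF.out.one_lt
    have hn1 : 0 < -n := by
      by_contra hcon
      push Not at hcon
      rw [hn] at hx
      have := zpow_le_one_of_nonpos₀ hp1.le hcon
      linarith
    have h2 : (p : ℚ) ≤ padicNorm p x := by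
      rw [hn]
      calc (p : ℚ) = (p : ℚ) ^ (1 : ℤ) := (zpow_one _).symm
        _ ≤ _ := zpow_le_zpow_right₀ hp1.le hn1
    have h3 : padicNorm p x⁻¹ = (padicNorm p x)⁻¹ := by
      have h4 := padicNorm.mul (p := p) x x⁻¹
      rw [mul_inv_cancel₀ hx0, padicNorm.one] at h4
      exact eq_inv_of_mul_eq_one_right h4.symm
    have h5 : padicNorm p (p : ℚ)⁻¹ = p := by
      have h4 := padicNorm.mul (p := p) (p : ℚ) (p : ℚ)⁻¹
      rw [mul_inv_cancel₀ hpp.ne', padicNorm.one, padicNorm.padicNorm_p_of_prime] at h4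
      field_simp at h4
      rw [one_div] at h4
      exact h4.symm
    rw [padicNorm.mul, h3, h5, ← div_eq_mul_inv, div_le_one hlt]
    exact h2
  have h2 := val_le_one v hv _ h1
  have hp1 : v.valuation K (p : K) < 1 := by
    have h : v.valuation K ((p : 𝓞 K) : K) < 1 :=
      (HeightOneSpectrum.valuation_lt_one_iff_mem (K := K) v (p : 𝓞 K)).2 hv
    have e : ((p : 𝓞 K) : K) = (p : K) := by simp
    rwa [e] at h
  have hxK : (x : K) ≠ 0 := by exact_mod_cast hx0
  have hpK : (p : K) ≠ 0 := by exact_mod_cast hpF.out.ne_zero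
  have h3 : (((p : ℚ)⁻¹ * x⁻¹ : ℚ) : K) * (x : K) * (p : K) = 1 := by
    push_cast
    field_simp
  have h4 := congrArg (v.valuation K) h3
  rw [map_mul, map_mul, map_one] at h4
  by_contra hcon
  push Not at hcon
  have h5 : v.valuation K (((p : ℚ)⁻¹ * x⁻¹ : ℚ) : K) * v.valuation K (x : K) ≤ 1 :=
    mul_le_one' h2 hcon
  have h6 : v.valuation K (((p : ℚ)⁻¹ * x⁻¹ : ℚ) : K) * v.valuation K (x : K) *
      v.valuation K (p : K) ≤ v.valuation K (p : K) := mul_le_of_le_one_left' h5
  rw [h4] at h6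
  exact absurd hp1 (not_lt.2 h6)

/-- The pole relation: `b` has a pole at every place of `K` above a prime of `Q` at which `a` has
a pole. -/
def PoleRel (K : Type) [Field K] [NumberField K] (Q : Set ℕ) (a b : K) : Prop :=
  ∀ v : HeightOneSpectrum (𝓞 K), Above Q v → 1 < v.valuation K a → 1 < v.valuation K b

/-- Relations of the algebra which imply the pole relation are thin on the integers. -/
theorem pole_sub (Q : Set ℕ) (hQ : Rich Q) (D : Set (K × K)) (hD : Alg2 K Q D)
    (hDP : ∀ x ∈ D, PoleRel K Q x.1 x.2) : ∃ B : Set ℤ, B.Finite ∧ ∀ n : ℤ, n ∉ B →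
      ∀ a1 b1 : ℤ, 0 < b1 → ∃ a b : ℤ, 0 < b ∧ b1 ∣ b ∧ b1 ∣ a - a1 ∧
        ∀ m : ℤ, b ∣ m - a → ((m : K), (n : K)) ∉ D := by
  obtain ⟨B, hB, hsl⟩ := det_slice Q D hD
  refine ⟨{n : ℤ | (n : K) ∈ B}, hB.preimage Int.cast_injective.injOn, fun n hn a1 b1 hb1 => ?_⟩
  have h2 := (hsl n hn).inter (ring_det Q)
  obtain ⟨a, b, hb, hbb, haa, hab⟩ := main Q hQ _ h2 (by
    rintro x ⟨hx1, hx2⟩
    apply Pool.Agent.TH766.HP.int_of_norm
    intro p hp
    by_cases hpQ : p ∈ Q
    · have : Fact p.Prime := ⟨hp⟩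
      by_contra hlt
      push Not at hlt
      obtain ⟨v, hv⟩ := exists_place (K := K) p hp
      have h3 := hDP _ hx1 v ⟨p, hp, hpQ, hv⟩ (val_gt_one v hv x hlt)
      exact absurd h3 (not_lt.2 (val_int_le v n))
    · exact hx2 p hp hpQ) a1 b1 hb1
  refine ⟨a, b, hb, hbb, haa, fun m hm hmD => hab m hm ⟨?_, ?_⟩⟩
  · change (((m : ℚ) : K), (n : K)) ∈ D
    have e : ((m : ℚ) : K) = (m : K) := by push_cast; rfl
    rw [e]
    exact hmD
  · intro p hp _
    have : Fact p.Prime := ⟨hp⟩
    exact padicNorm.of_int m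

end Pool.Agent.V7H20.PK
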