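import Mathlib

/-!
# Families of projective schemes over the line over a field `K`
-/

set_option autoImplicit false

namespace Pool.Agent.V7H20.PK

open Polynomial

/-- evaluation at `x ∈ A` of the polynomials over `K`, through `φ : K → A` -/
noncomputable def ev {K A : Type} [CommRing K] [CommRing A] (φ : K →+* A) (x : A) : K[X] →+* A :=
  eval₂RingHom φ x

/-- The fibre at `x` of the family of closed subschemes of projective space given by the
polynomials `F j (x; y)` (homogeneous in `y`) has a point over `k`, for `φ : K → k`. -/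
def HasPt {K k : Type} [Field K] [Field k] (φ : K →+* k) {n r : ℕ}
    (F : Fin r → MvPolynomial (Fin n) K[X]) (x : k) : Prop :=
  ∃ y : Fin n → k, y ≠ 0 ∧ ∀ j, MvPolynomial.eval₂ (ev φ x) y (F j) = 0

/-- all the polynomials are homogeneous (in `y`) -/
def Homog {K : Type} [Field K] {n r : ℕ} (F : Fin r → MvPolynomial (Fin n) K[X]) : Prop :=
  ∀ j, ∃ d : ℕ, (F j).IsHomogeneous d

/-- `g` is a separable polynomial over `K(X)` -/
def Sep {K : Type} [Field K] (g : K[X][X]) : Prop := 0 < g.natDegree ∧
  ∃ (a b : K[X][X]) (D : K[X]), D ≠ 0 ∧ a * g + b * derivative g = C D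

section

variable {K A B : Type} [CommRing K] [CommRing A] [CommRing B]

theorem ev_C (φ : K →+* A) (x : A) (c : K) : ev φ x (C c) = φ c := by simp [ev]

theorem ev_X (φ : K →+* A) (x : A) : ev φ x X = x := by simp [ev]

theorem ev_apply (φ : K →+* A) (x : A) (q : K[X]) : ev φ x q = q.eval₂ φ x := rfl

theorem ev_monomial (φ : K →+* A) (x : A) (j : ℕ) (q : K) :
    ev φ x (monomial j q) = φ q * x ^ j := by
  simp [ev]

theorem comp_ev (φ : K →+* A) (ψ : A →+* B) (x : A) :
    ψ.comp (ev φ x) = ev (ψ.comp φ) (ψ x) := by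
  apply Polynomial.ringHom_ext
  · intro a
    simp [ev]
  · simp [ev]

end

theorem HasPt.map {K k k' : Type} [Field K] [Field k] [Field k'] {φ : K →+* k} {n r : ℕ}
    {F : Fin r → MvPolynomial (Fin n) K[X]} {x : k} (ψ : k →+* k') (h : HasPt φ F x) :
    HasPt (ψ.comp φ) F (ψ x) := by
  obtain ⟨y, hy, h0⟩ := h
  refine ⟨ψ ∘ y, ?_, fun j => ?_⟩
  · intro hz
    apply hy
    funext i
    have := congrFun hz i
    simpa using this
  · have h1 := congrArg ψ (h0 j)
    rw [map_zero, MvPolynomial.eval₂_comp_left, comp_ev] at h1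
    exact h1

end Pool.Agent.V7H20.PK
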