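import Pool.Agent.V7H20.PK.Base

/-!
# Clearing denominators in `g(s ^ (-m), t s ^ (-B))`
-/

set_option autoImplicit false

namespace Pool.Agent.V7H20.PK

open Polynomial

variable {K : Type} [Field K]

theorem clear_den (m B : ℕ) (g : K[X][X]) : ∃ C0 : ℕ, ∀ C : ℕ, C0 ≤ C → ∃ G : K[X][X],
    ∀ (k : Type) [Field k] (φ : K →+* k) (s : k), s ≠ 0 →
      G.map (ev φ s) = Polynomial.C (s ^ C) *
        (g.map (ev φ ((s⁻¹) ^ m))).comp (Polynomial.C ((s⁻¹) ^ B) * X) := by
  induction g using Polynomial.induction_on' with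
  | add g g' hg hg' =>
    obtain ⟨C1, h1⟩ := hg
    obtain ⟨C2, h2⟩ := hg'
    refine ⟨max C1 C2, fun C hC => ?_⟩
    obtain ⟨G1, hG1⟩ := h1 C ((le_max_left _ _).trans hC)
    obtain ⟨G2, hG2⟩ := h2 C ((le_max_right _ _).trans hC)
    refine ⟨G1 + G2, fun k _ φ s hs => ?_⟩
    rw [Polynomial.map_add, hG1 k φ s hs, hG2 k φ s hs, Polynomial.map_add, Polynomial.add_comp]
    ring
  | monomial i c =>
    induction c using Polynomial.induction_on' with
    | add a b ha hb =>
      obtain ⟨C1, h1⟩ := ha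
      obtain ⟨C2, h2⟩ := hb
      refine ⟨max C1 C2, fun C hC => ?_⟩
      obtain ⟨G1, hG1⟩ := h1 C ((le_max_left _ _).trans hC)
      obtain ⟨G2, hG2⟩ := h2 C ((le_max_right _ _).trans hC)
      refine ⟨G1 + G2, fun k _ φ s hs => ?_⟩
      rw [Polynomial.map_add, hG1 k φ s hs, hG2 k φ s hs, map_add (monomial i), Polynomial.map_add,
        Polynomial.add_comp]
      ring
    | monomial j q =>
      refine ⟨m * j + B * i, fun C hC => ⟨monomial i (monomial (C - (m * j + B * i)) q),
        fun k _ φ s hs => ?_⟩⟩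
      rw [map_monomial, map_monomial, ev_monomial, ev_monomial, monomial_comp, mul_pow,
        ← C_mul_X_pow_eq_monomial]
      have h1 : s ^ C = s ^ (C - (m * j + B * i)) * (s ^ (m * j) * s ^ (B * i)) := by
        rw [← pow_add, ← pow_add]
        congr 1
        omega
      have h2 : (φ q) * s ^ (C - (m * j + B * i)) =
          s ^ C * ((φ q) * ((s⁻¹) ^ m) ^ j * ((s⁻¹) ^ B) ^ i) := by
        rw [h1, ← pow_mul, ← pow_mul, inv_pow, inv_pow]
        have h3 : s ^ (m * j) ≠ 0 := pow_ne_zero _ hs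
        have h4 : s ^ (B * i) ≠ 0 := pow_ne_zero _ hs
        field_simp
      rw [h2]
      simp only [C_mul, C_pow]
      ring

end Pool.Agent.V7H20.PK
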