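import Pool.Agent.V7H20.PK.RealK

/-!
# The conditions at all infinite places
-/

set_option autoImplicit false

namespace Pool.Agent.V7H20.PK

open Polynomial

/-- locally constant in the real topology off a finite set -/
def LC (S : Set ℚ) : Prop := ∃ B : Set ℚ, B.Finite ∧ ∀ x : ℚ, x ∉ B → ∃ ε : ℚ, 0 < ε ∧
  ∀ y : ℚ, |y - x| < ε → (y ∈ S ↔ x ∈ S)

theorem LC.forall {ι : Type} [Finite ι] (S : ι → Set ℚ) (h : ∀ i, LC (S i)) :
    LC {x | ∀ i, x ∈ S i} := by
  classical
  have := Fintype.ofFinite ι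
  choose B hB hloc using h
  refine ⟨⋃ i, B i, Set.finite_iUnion hB, fun x hx => ?_⟩
  have hx' : ∀ i, x ∉ B i := fun i h => hx (Set.mem_iUnion.2 ⟨i, h⟩)
  choose ε hε hloc' using fun i => hloc i x (hx' i)
  rcases isEmpty_or_nonempty ι with hι | hι
  · exact ⟨1, one_pos, fun y _ => ⟨fun _ i => (hι.false i).elim, fun _ i => (hι.false i).elim⟩⟩
  · refine ⟨Finset.univ.inf' Finset.univ_nonempty ε, ?_, fun y hy => ?_⟩
    · rw [Finset.lt_inf'_iff]
      exact fun i _ => hε i
    · refine forall_congr' fun i => hloc' i y ?_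
      exact hy.trans_le (Finset.inf'_le _ (Finset.mem_univ i))

theorem LC.inter {S T : Set ℚ} (hS : LC S) (hT : LC T) : LC (S ∩ T) := by
  have h := LC.forall (fun b : Bool => if b then S else T) (fun b => by cases b <;> simpa)
  have e : {x | ∀ b : Bool, x ∈ (if b then S else T : Set ℚ)} = S ∩ T := by
    ext x
    simp [and_comm]
  rwa [e] at h

theorem LC.of_const {S B : Set ℚ} (hB : B.Finite)
    (h : (∀ x, x ∉ B → x ∈ S) ∨ (∀ x, x ∉ B → x ∉ S)) : LC S := by
  refine ⟨B, hB, fun x hx => ?_⟩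
  have h1 : ∃ ε : ℚ, 0 < ε ∧ ∀ y ∈ B, ε ≤ |y - x| := by
    rcases hB.toFinset.eq_empty_or_nonempty with he | hne
    · exact ⟨1, one_pos, fun y hy => by
        have := hB.mem_toFinset.2 hy
        rw [he] at this
        simp at this⟩
    · refine ⟨hB.toFinset.inf' hne fun y => |y - x|, ?_, fun y hy =>
        Finset.inf'_le _ (hB.mem_toFinset.2 hy)⟩
      rw [Finset.lt_inf'_iff]
      intro y hy
      rw [abs_pos, sub_ne_zero]
      rintro rfl
      exact hx (hB.mem_toFinset.1 hy)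
  obtain ⟨ε, hε, hεB⟩ := h1
  refine ⟨ε, hε, fun y hy => ?_⟩
  have hyB : y ∉ B := fun h => absurd hy (not_lt.2 (hεB y h))
  rcases h with h | h
  · exact ⟨fun _ => h x hx, fun _ => h y hyB⟩
  · exact ⟨fun h' => absurd h' (h y hyB), fun h' => absurd h' (h x hx)⟩

variable {K : Type} [Field K]

/-- the rational zeros of a polynomial -/
theorem finite_zeros {k : Type} [Field k] [CharZero k] (φ : K →+* k) (D : K[X]) (hD : D ≠ 0) :
    {x : ℚ | ev φ (x : k) D = 0}.Finite := by
  have h1 : (D.map φ) ≠ 0 := by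
    rw [Ne, Polynomial.map_eq_zero]
    exact hD
  refine ((Polynomial.finite_setOfPred_isRoot h1).preimage
    (f := fun x : ℚ => (x : k)) (Rat.cast_injective.injOn)).subset fun x hx => ?_
  change Polynomial.IsRoot _ (x : k)
  rw [IsRoot, eval_map, ← ev_apply]
  exact hx

variable [NumberField K]

/-- the complex condition -/
theorem cplx (φ : K →+* ℂ) {n r : ℕ} (F : Fin r → MvPolynomial (Fin n) K[X]) (hF : Homog F) :
    LC {x : ℚ | HasPt φ F (x : ℂ)} := by
  rcases gen F hF with ⟨D, hD, h⟩ | ⟨g, E, hg, hE, h⟩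
  · refine LC.of_const (finite_zeros φ D hD) (Or.inr fun x hx hx' => hx ?_)
    exact h ℂ φ x hx'
  · have hlc : g.leadingCoeff ≠ 0 := by
      rw [Ne, leadingCoeff_eq_zero]
      rintro rfl
      exact absurd hg.1 (by simp)
    refine LC.of_const (finite_zeros φ (E * g.leadingCoeff) (mul_ne_zero hE hlc))
      (Or.inl fun x hx => ?_)
    have hx' : ev φ (x : ℂ) E ≠ 0 ∧ ev φ (x : ℂ) g.leadingCoeff ≠ 0 := by
      have h2 : ev φ (x : ℂ) (E * g.leadingCoeff) ≠ 0 := hx
      rw [map_mul] at h2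
      exact mul_ne_zero_iff.1 h2
    have hdeg : (g.map (ev φ (x : ℂ))).natDegree = g.natDegree :=
      natDegree_map_of_leadingCoeff_ne_zero _ hx'.2
    obtain ⟨t, ht⟩ := IsAlgClosed.exists_root (g.map (ev φ (x : ℂ))) (by
      intro h3
      have h4 := natDegree_eq_of_degree_eq_some (n := 0) (by exact_mod_cast h3)
      have := hg.1
      omega)
    exact h ℂ φ x t hx'.1 ht

theorem finite_emb (k : Type) [Field k] [CharZero k] : Finite (K →+* k) :=
  Finite.of_injective (fun ρ : K →+* k => ρ.toRatAlgHom) fun ρ ρ' h => by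
    ext1 x
    exact congrArg (fun g : K →ₐ[ℚ] k => g x) h

/-- the condition at all infinite places -/
theorem inf_cond {n r : ℕ} (F : Fin r → MvPolynomial (Fin n) K[X]) (hF : Homog F) :
    LC {x : ℚ | (∀ φ : K →+* ℝ, HasPt φ F (x : ℝ)) ∧ ∀ φ : K →+* ℂ, HasPt φ F (x : ℂ)} := by
  have h1 := finite_emb (K := K) ℝ
  have h2 := finite_emb (K := K) ℂ
  exact (LC.forall (fun φ : K →+* ℝ => {x : ℚ | HasPt φ F (x : ℝ)}) fun φ => real φ F).inter
    (LC.forall (fun φ : K →+* ℂ => {x : ℚ | HasPt φ F (x : ℂ)}) fun φ => cplx φ F hF)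

end Pool.Agent.V7H20.PK
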