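import Pool.Agent.V7H20.PK.LocB

/-!
# The completions of a number field at the finite places
-/

set_option autoImplicit false

namespace Pool.Agent.V7H20.PK

open Filter Topology Polynomial IsDedekindDomain NumberField

variable {K : Type} [Field K] [NumberField K] (v : HeightOneSpectrum (𝓞 K))

/-- the map of the field to its completion -/
noncomputable abbrev toC : K →+* v.adicCompletion K := algebraMap K (v.adicCompletion K)

instance charZero_adic : CharZero (v.adicCompletion K) :=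
  charZero_of_injective_ringHom (toC v).injective

theorem toC_eq (x : K) : toC v x = FinitePlace.embedding v x := by
  rw [FinitePlace.embedding_apply, toC, HeightOneSpectrum.algebraMap_adicCompletion]
  rfl

theorem norm_nat_le (n : ℕ) : ‖(n : v.adicCompletion K)‖ ≤ 1 := by
  have h := FinitePlace.norm_le_one (K := K) v (n : 𝓞 K)
  rw [map_natCast, map_natCast] at h
  exact h

theorem norm_p_lt {p : ℕ} (hv : (p : 𝓞 K) ∈ v.asIdeal) : ‖(p : v.adicCompletion K)‖ < 1 := by
  have h := (FinitePlace.norm_lt_one_iff_mem (K := K) v (p : 𝓞 K)).2 hv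
  rw [map_natCast, map_natCast] at h
  exact h

theorem exists_j {p : ℕ} [Fact p.Prime] (hv : (p : 𝓞 K) ∈ v.asIdeal) :
    ∃ j : ℚ_[p] →+* v.adicCompletion K, Continuous j :=
  exists_emb p (norm_nat_le v) (norm_p_lt v hv)

/-- the local condition at a finite place is closed -/
theorem comp_adic {n r : ℕ} (F : Fin r → MvPolynomial (Fin n) K[X]) (hF : Homog F)
    {p : ℕ} [Fact p.Prime] (hv : (p : 𝓞 K) ∈ v.asIdeal) (x : ℚ)
    (hx : ¬ HasPt (toC v) F (x : v.adicCompletion K)) :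
    ∃ ε : ℚ, 0 < ε ∧ ∀ y : ℚ, padicNorm p (y - x) < ε →
      ¬ HasPt (toC v) F (y : v.adicCompletion K) := by
  obtain ⟨j, hj⟩ := exists_j v hv
  have : ProperSpace (v.adicCompletion K) :=
    proper (toC v) (v.denseRange_algebraMap K) p j hj (norm_p_lt v hv)
  exact comp (toC v) F hF p j hj x hx

/-- every finite place lies above a prime number -/
theorem exists_prime : ∃ p : ℕ, p.Prime ∧ (p : 𝓞 K) ∈ v.asIdeal := by
  have h1 : ((Ideal.absNorm v.asIdeal : ℕ) : 𝓞 K) ∈ v.asIdeal := Ideal.absNorm_mem _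
  have h0 : Ideal.absNorm v.asIdeal ≠ 0 := by
    rw [Ne, Ideal.absNorm_eq_zero_iff]
    exact v.ne_bot
  have hind : ∀ m : ℕ, m ≠ 0 → (m : 𝓞 K) ∈ v.asIdeal → ∃ p : ℕ, p.Prime ∧ (p : 𝓞 K) ∈ v.asIdeal := by
    intro m
    induction m using Nat.recOnMul with
    | zero => intro h; exact absurd rfl h
    | one =>
      intro _ h
      rw [Nat.cast_one] at h
      exact absurd ((Ideal.eq_top_iff_one _).2 h) v.isPrime.ne_top
    | prime p hp => intro _ h; exact ⟨p, hp, h⟩
    | mul a b ha hb =>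
      intro hab h
      rw [Nat.cast_mul] at h
      rcases v.isPrime.mem_or_mem h with h | h
      · exact ha (left_ne_zero_of_mul hab) h
      · exact hb (right_ne_zero_of_mul hab) h
  exact hind _ h0 h1

/-- only one -/
theorem prime_unique {p q : ℕ} (hp : p.Prime) (hq : q.Prime) (h1 : (p : 𝓞 K) ∈ v.asIdeal)
    (h2 : (q : 𝓞 K) ∈ v.asIdeal) : p = q := by
  by_contra hne
  have hc : IsCoprime (p : ℤ) (q : ℤ) :=
    Nat.isCoprime_iff_coprime.2 ((Nat.coprime_primes hp hq).2 hne)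
  obtain ⟨a, b, hab⟩ := hc
  apply v.isPrime.ne_top
  rw [Ideal.eq_top_iff_one]
  have h3 : (a : 𝓞 K) * (p : 𝓞 K) + (b : 𝓞 K) * (q : 𝓞 K) = 1 := by exact_mod_cast hab
  rw [← h3]
  exact Ideal.add_mem _ (Ideal.mul_mem_left _ _ h1) (Ideal.mul_mem_left _ _ h2)

theorem val_int_le (n : ℤ) : v.valuation K (n : K) ≤ 1 := by
  have h : v.valuation K ((n : 𝓞 K) : K) ≤ 1 := v.valuation_le_one (K := K) (n : 𝓞 K)
  have e : ((n : 𝓞 K) : K) = (n : K) := by simp
  rwa [e] at h

theorem val_coprime {p : ℕ} (hv : (p : 𝓞 K) ∈ v.asIdeal) (b : ℕ) (hb : Nat.Coprime b p) :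
    v.valuation K (b : K) = 1 := by
  have hbv : (b : 𝓞 K) ∉ v.asIdeal := by
    intro h
    apply v.isPrime.ne_top
    rw [Ideal.eq_top_iff_one]
    obtain ⟨a, c, hac⟩ := Nat.isCoprime_iff_coprime.2 hb
    have h3 : (a : 𝓞 K) * (b : 𝓞 K) + (c : 𝓞 K) * (p : 𝓞 K) = 1 := by exact_mod_cast hac
    rw [← h3]
    exact Ideal.add_mem _ (Ideal.mul_mem_left _ _ h) (Ideal.mul_mem_left _ _ hv)
  have h1 : v.valuation K (algebraMap (𝓞 K) K (b : 𝓞 K)) = 1 :=
    (HeightOneSpectrum.valuation_eq_one_iff_notMem v).2 hbv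
  have e : algebraMap (𝓞 K) K (b : 𝓞 K) = (b : K) := by simp
  rwa [e] at h1

/-- `p`-integral rational numbers have valuation at most one -/
theorem val_le_one {p : ℕ} [hpF : Fact p.Prime] (hv : (p : 𝓞 K) ∈ v.asIdeal) (y : ℚ)
    (hy : padicNorm p y ≤ 1) : v.valuation K (y : K) ≤ 1 := by
  have hden : Nat.Coprime y.den p := by
    rw [Nat.coprime_comm, Nat.Prime.coprime_iff_not_dvd hpF.out]
    intro hd
    have h3 : padicNorm p (y.den : ℚ) < 1 := (padicNorm.nat_lt_one_iff y.den).2 hd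
    have h4 : padicNorm p (y.num : ℚ) = 1 := by
      rw [padicNorm.int_eq_one_iff]
      intro hd2
      have h5 : p ∣ y.num.natAbs := Int.natCast_dvd.1 hd2
      have h6 := Nat.dvd_gcd h5 hd
      rw [y.reduced] at h6
      exact hpF.out.one_lt.ne' (Nat.dvd_one.1 h6)
    have h7 : y = (y.num : ℚ) / (y.den : ℚ) := (Rat.num_div_den y).symm
    rw [h7, padicNorm.div, h4] at hy
    have h8 : 0 < padicNorm p (y.den : ℚ) := lt_of_le_of_ne (padicNorm.nonneg _)
      (padicNorm.nonzero (by exact_mod_cast y.den_nz)).symm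
    rw [div_le_one h8] at hy
    linarith
  have h9 : (y : K) * (y.den : K) = (y.num : K) := by
    have := Rat.mul_den_eq_num y
    exact_mod_cast this
  have h10 := congrArg (v.valuation K) h9
  rw [map_mul, val_coprime v hv _ hden, mul_one] at h10
  rw [h10]
  exact val_int_le v _

/-- the valuation of a rational number -/
theorem val_rat_lt {p : ℕ} [hpF : Fact p.Prime] (hv : (p : 𝓞 K) ∈ v.asIdeal)
    (γ : WithZero (Multiplicative ℤ)) (hγ : γ ≠ 0) : ∃ ε : ℚ, 0 < ε ∧ ∀ x : ℚ,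
      padicNorm p x < ε → v.valuation K (x : K) < γ := by
  have hp1 : v.valuation K (p : K) < 1 := by
    have h : v.valuation K ((p : 𝓞 K) : K) < 1 :=
      (HeightOneSpectrum.valuation_lt_one_iff_mem (K := K) v (p : 𝓞 K)).2 hv
    have e : ((p : 𝓞 K) : K) = (p : K) := by simp
    rwa [e] at h
  obtain ⟨N, hN⟩ := exists_pow_lt₀ hp1 (Units.mk0 γ hγ)
  rw [Units.val_mk0] at hN
  have hp0 : (p : ℚ) ≠ 0 := by exact_mod_cast hpF.out.ne_zero
  have hpp : (0 : ℚ) < (p : ℚ) ^ N := pow_pos (by exact_mod_cast hpF.out.pos) _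
  refine ⟨((p : ℚ) ^ N)⁻¹, inv_pos.2 hpp, fun x hx => ?_⟩
  obtain ⟨y, hy⟩ : ∃ y : ℚ, y = x / (p : ℚ) ^ N := ⟨_, rfl⟩
  have hxy : x = (p : ℚ) ^ N * y := by rw [hy]; field_simp
  have hyn : padicNorm p y ≤ 1 := by
    have h1 : ∀ n : ℕ, padicNorm p ((p : ℚ) ^ n) = ((p : ℚ) ^ n)⁻¹ := by
      intro n
      induction n with
      | zero => simp
      | succ n ih => rw [pow_succ, padicNorm.mul, ih, padicNorm.padicNorm_p_of_prime, mul_inv]
    rw [hy, padicNorm.div, h1, div_inv_eq_mul]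
    have := mul_lt_mul_of_pos_right hx hpp
    rw [inv_mul_cancel₀ hpp.ne'] at this
    exact this.le
  rw [hxy]
  push_cast
  rw [map_mul, map_pow]
  exact (mul_le_of_le_one_right' (val_le_one v hv y hyn)).trans_lt hN

end Pool.Agent.V7H20.PK
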