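import Pool.Agent.V7H20.PK.PuiK
import Pool.Agent.H527R9.CC.T_SQK

/-!
# Points near infinity at the completely split primes
-/

set_option autoImplicit false

namespace Pool.Agent.V7H20.PK

open Polynomial Pool.Agent.H527R9.CC

theorem eval_ne_large {K : Type} [Field K] (p : ℕ) [Fact p.Prime] (ρ : K →+* ℚ_[p]) (E : K[X])
    (hE : E ≠ 0) : ∃ c : ℝ, ∀ x : ℚ_[p], c < ‖x‖ → ev ρ x E ≠ 0 := by
  have hfin : {x : ℚ_[p] | ev ρ x E = 0}.Finite := by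
    have h1 : (E.map ρ) ≠ 0 := by
      rw [Ne, Polynomial.map_eq_zero]
      exact hE
    refine (Polynomial.finite_setOfPred_isRoot h1).subset ?_
    intro x hx
    change Polynomial.IsRoot _ x
    rw [IsRoot, eval_map, ← ev_apply]
    exact hx
  obtain ⟨c, hc⟩ := (hfin.isBounded).exists_norm_le
  exact ⟨c, fun x hx h0 => absurd (hc x h0) (not_le.2 hx)⟩

theorem near {K : Type} [Field K] [NumberField K] {n r : ℕ}
    (F : Fin r → MvPolynomial (Fin n) K[X]) (g : K[X][X]) (E : K[X]) (hg : Sep g) (hE : E ≠ 0)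
    (hgen : ∀ (k : Type) [Field k] (φ : K →+* k)
      (x t : k), ev φ x E ≠ 0 → (g.map (ev φ x)).eval t = 0 → HasPt φ F x) :
    ∃ (M : ℕ) (h : ℤ[X]), M ≠ 0 ∧ 0 < h.natDegree ∧ ∀ (p : ℕ) [Fact p.Prime],
      (∃ t : ℚ_[p], aeval t h = 0) → ∀ ρ : K →+* ℚ_[p],
      ∀ M' : ℕ, M' ≠ 0 → M ∣ M' → ∀ n m : ℤ, m ≠ 0 →
        ∃ K : ℕ, ∀ k : ℕ, K ≤ k →
          HasPt ρ F ((((n : ℚ) + ((m : ℚ) / (p : ℚ) ^ k) ^ M' : ℚ)) : ℚ_[p]) := by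
  obtain ⟨M, h, hM, hh, hpui⟩ := pui g hg
  refine ⟨M, h, hM, hh, fun p _ hp ρ M' hM' hdvd a m hm => ?_⟩
  obtain ⟨c, hc⟩ := hpui p hp ρ
  obtain ⟨c', hc'⟩ := eval_ne_large p ρ E hE
  obtain ⟨e, rfl⟩ := hdvd
  have he : e ≠ 0 := by rintro rfl; exact hM' rfl
  obtain ⟨ε, hε, hsq⟩ := t_SQK p (M * e) hM'
  have hp1 : (1 : ℝ) < p := by exact_mod_cast (Fact.out : p.Prime).one_lt
  have hm0 : ‖(m : ℚ_[p])‖ ≠ 0 := by
    rw [Ne, norm_eq_zero]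
    exact_mod_cast hm
  have hmpos : 0 < ‖(m : ℚ_[p])‖ := lt_of_le_of_ne (norm_nonneg _) hm0.symm
  -- the size we need
  obtain ⟨A, hA⟩ : ∃ A : ℝ, A = max (max 1 c) (max c' (max (1 / ε) 1)) + 1 := ⟨_, rfl⟩
  obtain ⟨K0, hK⟩ := pow_unbounded_of_one_lt (A / ‖(m : ℚ_[p])‖) hp1
  refine ⟨K0, fun k hk => ?_⟩
  set q : ℚ_[p] := (m : ℚ_[p]) / (p : ℚ_[p]) ^ k with hq
  have hqn : A < ‖q‖ := by
    rw [hq, norm_div, norm_pow, Padic.norm_p, inv_pow, div_inv_eq_mul]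
    have h1 : (p : ℝ) ^ K0 ≤ (p : ℝ) ^ k := pow_le_pow_right₀ hp1.le hk
    have h2 : A / ‖(m : ℚ_[p])‖ < (p : ℝ) ^ k := hK.trans_le h1
    rw [div_lt_iff₀ hmpos] at h2
    linarith
  have hA1 : max 1 c < A := by rw [hA]; have := le_max_left (max 1 c) (max c' (max (1 / ε) 1)); linarith
  have hA2 : max c' (max (1 / ε) 1) < A := by
    rw [hA]; have := le_max_right (max 1 c) (max c' (max (1 / ε) 1)); linarith
  have hq1 : 1 < ‖q‖ := lt_trans (lt_of_le_of_lt (le_max_left _ _) hA1) hqn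
  have hqc : c < ‖q‖ := lt_trans (lt_of_le_of_lt (le_max_right _ _) hA1) hqn
  have hqc' : c' < ‖q‖ := lt_trans (lt_of_le_of_lt (le_max_left _ _) hA2) hqn
  have hqε : 1 / ε < ‖q‖ := lt_trans (lt_of_le_of_lt ((le_max_left _ _).trans (le_max_right _ _)) hA2) hqn
  have hq0 : q ≠ 0 := norm_pos_iff.1 (by linarith)
  -- the unit
  set u : ℚ_[p] := 1 + (a : ℚ_[p]) / q ^ (M * e) with hu
  have hsmall : ‖(a : ℚ_[p]) / q ^ (M * e)‖ < min ε 1 := by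
    rw [norm_div, norm_pow]
    have h1 : ‖(a : ℚ_[p])‖ ≤ 1 := Padic.norm_int_le_one a
    have h2 : ‖q‖ ≤ ‖q‖ ^ (M * e) := by
      calc ‖q‖ = ‖q‖ ^ 1 := (pow_one _).symm
        _ ≤ _ := pow_le_pow_right₀ hq1.le (Nat.one_le_iff_ne_zero.2 hM')
    have h3 : 0 < ‖q‖ ^ (M * e) := by positivity
    rw [div_lt_iff₀ h3]
    refine lt_of_le_of_lt h1 ?_
    rw [min_mul_of_nonneg _ _ h3.le, lt_min_iff]
    constructor
    · have h4 : 1 / ε < ‖q‖ ^ (M * e) := hqε.trans_le h2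
      rwa [div_lt_iff₀ hε, mul_comm] at h4
    · rw [one_mul]
      exact hq1.trans_le h2
  obtain ⟨w, hw⟩ := hsq u (by
    rw [hu, add_sub_cancel_left]
    exact hsmall.trans_le (min_le_left _ _))
  have hun : ‖u‖ = 1 := by
    have h1 : ‖(a : ℚ_[p]) / q ^ (M * e)‖ ≠ ‖(1 : ℚ_[p])‖ := by
      rw [norm_one]
      exact (hsmall.trans_le (min_le_right _ _)).ne
    rw [hu, Padic.add_eq_max_of_ne h1.symm, norm_one]
    exact max_eq_left (hsmall.trans_le (min_le_right _ _)).le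
  have hwn : ‖w‖ = 1 := by
    have h1 : ‖w‖ ^ (M * e) = 1 := by rw [← norm_pow, hw, hun]
    exact (pow_eq_one_iff_of_nonneg (norm_nonneg _) hM').1 h1
  have hx : ((((a : ℚ) + ((m : ℚ) / (p : ℚ) ^ k) ^ (M * e) : ℚ)) : ℚ_[p]) = ((q * w) ^ e) ^ M := by
    have h1 : ((q * w) ^ e) ^ M = q ^ (M * e) * w ^ (M * e) := by
      rw [← pow_mul, mul_comm e M, mul_pow]
    rw [h1, hw, hu, mul_add, mul_one, mul_div_cancel₀ _ (pow_ne_zero _ hq0), hq]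
    push_cast
    ring
  have hzn : ‖q‖ ≤ ‖(q * w) ^ e‖ := by
    rw [norm_pow, norm_mul, hwn, mul_one]
    calc ‖q‖ = ‖q‖ ^ 1 := (pow_one _).symm
      _ ≤ _ := pow_le_pow_right₀ hq1.le (Nat.one_le_iff_ne_zero.2 he)
  have hxn : ‖q‖ ≤ ‖((q * w) ^ e) ^ M‖ := by
    refine hzn.trans ?_
    rw [norm_pow _ M]
    calc ‖(q * w) ^ e‖ = ‖(q * w) ^ e‖ ^ 1 := (pow_one _).symm
      _ ≤ _ := pow_le_pow_right₀ (hq1.le.trans hzn) (Nat.one_le_iff_ne_zero.2 hM)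
  obtain ⟨t, ht⟩ := hc ((q * w) ^ e) (hqc.trans_le hzn)
  rw [hx]
  exact hgen ℚ_[p] ρ _ t (hc' _ (hqc'.trans_le hxn)) ht

/-- uniformly in the embeddings -/
theorem near_all {K : Type} [Field K] [NumberField K] {n r : ℕ}
    (F : Fin r → MvPolynomial (Fin n) K[X]) (g : K[X][X]) (E : K[X]) (hg : Sep g) (hE : E ≠ 0)
    (hgen : ∀ (k : Type) [Field k] (φ : K →+* k)
      (x t : k), ev φ x E ≠ 0 → (g.map (ev φ x)).eval t = 0 → HasPt φ F x) :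
    ∃ (M : ℕ) (h : ℤ[X]), M ≠ 0 ∧ 0 < h.natDegree ∧ ∀ (p : ℕ) [Fact p.Prime],
      (∃ t : ℚ_[p], aeval t h = 0) →
      ∀ M' : ℕ, M' ≠ 0 → M ∣ M' → ∀ n m : ℤ, m ≠ 0 →
        ∃ K0 : ℕ, ∀ k : ℕ, K0 ≤ k → ∀ ρ : K →+* ℚ_[p],
          HasPt ρ F ((((n : ℚ) + ((m : ℚ) / (p : ℚ) ^ k) ^ M' : ℚ)) : ℚ_[p]) := by
  obtain ⟨M, h, hM, hh, H⟩ := near F g E hg hE hgen
  refine ⟨M, h, hM, hh, fun p _ hp M' hM' hdvd a m hm => ?_⟩
  have hfin : Finite (K →+* ℚ_[p]) :=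
    Finite.of_injective (fun ρ : K →+* ℚ_[p] => ρ.toRatAlgHom) fun ρ ρ' h => by
      ext1 x
      exact congrArg (fun g : K →ₐ[ℚ] ℚ_[p] => g x) h
  have := Fintype.ofFinite (K →+* ℚ_[p])
  choose K0 hK0 using fun ρ => H p hp ρ M' hM' hdvd a m hm
  exact ⟨Finset.univ.sup K0, fun k hk ρ => hK0 ρ k
    ((Finset.le_sup (f := K0) (Finset.mem_univ ρ)).trans hk)⟩

end Pool.Agent.V7H20.PK
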