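import Pool.Agent.TH766.HP.Main
import Pool.Agent.V7H20.PK.LocC
import Pool.Agent.V7H20.PK.NearK
import Pool.Agent.V7H20.PK.InfK

/-!
# Sets of rational numbers determined by local conditions on residue classes
-/

set_option autoImplicit false

namespace Pool.Agent.V7H20.PK

open Polynomial IsDedekindDomain NumberField
open Pool.Agent.TH766.HP (Nice Cls Rich nice_finite nice_cls nice_padic Cls_mono int_mem_Cls
  cls_closed core)

variable {K : Type} [Field K] [NumberField K]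

/-- the fibre at the rational number `x` has points over all completions -/
def LocSol {n r : ℕ} (F : Fin r → MvPolynomial (Fin n) K[X]) (x : ℚ) : Prop :=
  ((∀ φ : K →+* ℝ, HasPt φ F (x : ℝ)) ∧ ∀ φ : K →+* ℂ, HasPt φ F (x : ℂ)) ∧
  ∀ v : HeightOneSpectrum (𝓞 K), HasPt (toC v) F (x : v.adicCompletion K)

theorem HasPt.of_rat {k : Type} [Field k] [CharZero k] {n r : ℕ}
    {F : Fin r → MvPolynomial (Fin n) K[X]} {x : ℚ} (φ : K →+* k)
    (h : HasPt (RingHom.id K) F (x : K)) : HasPt φ F (x : k) := by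
  have := h.map φ
  rw [map_ratCast, RingHom.comp_id] at this
  exact this

theorem nice_family (Q : Set ℕ) {n r : ℕ} (F : Fin r → MvPolynomial (Fin n) K[X]) (hF : Homog F)
    (a b : ℤ) (hb : 0 < b)
    (hfin : {x : ℚ | x ∈ Cls a b ∧ LocSol F x ∧ ¬ HasPt (RingHom.id K) F (x : K)}.Finite) :
    Nice Q ({x : ℚ | HasPt (RingHom.id K) F (x : K)} ∩ Cls a b) := by
  rcases gen F hF with ⟨D, hD, h⟩ | ⟨g, E, hg, hE, hgen⟩
  · have hfin0 : {x : ℚ | HasPt (RingHom.id K) F (x : K)}.Finite :=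
      (finite_zeros (RingHom.id K) D hD).subset fun x hx => h K (RingHom.id K) x hx
    exact nice_finite Q _ (hfin0.subset Set.inter_subset_left)
  obtain ⟨M, h, hM, hh, hnear⟩ := near_all F g E hg hE hgen
  obtain ⟨f, -, hf⟩ := factor_emb K
  obtain ⟨h', hh', hsplit⟩ := split_prime f
  obtain ⟨B, hB, hreal⟩ := inf_cond F hF
  refine ⟨{x : ℚ | (∀ φ : K →+* ℝ, HasPt φ F (x : ℝ)) ∧ ∀ φ : K →+* ℂ, HasPt φ F (x : ℂ)},
    fun p => {x | (∀ v : HeightOneSpectrum (𝓞 K), (p : 𝓞 K) ∈ v.asIdeal →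
      HasPt (toC v) F (x : v.adicCompletion K)) ∧
      ((p : ℤ) ∣ b → padicNorm p (x - a) ≤ padicNorm p b)},
    {x : ℚ | x ∈ Cls a b ∧ LocSol F x ∧ ¬ HasPt (RingHom.id K) F (x : K)} ∪ B, M, b.natAbs,
    {h, h'}, hfin.union hB, hM, ?_, ?_, ?_, ?_, ?_⟩
  · intro q hq
    simp only [Finset.mem_insert, Finset.mem_singleton] at hq
    rcases hq with rfl | rfl
    · exact hh
    · exact hh'
  · intro x hx
    constructor
    · rintro ⟨h1, h2⟩
      exact ⟨⟨fun φ => HasPt.of_rat φ h1, fun φ => HasPt.of_rat φ h1⟩,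
        fun p hp => ⟨fun v _ => HasPt.of_rat _ h1, h2 p hp⟩⟩
    · rintro ⟨h1, h2⟩
      have hcls : x ∈ Cls a b := fun p hp => (h2 p hp).2
      refine ⟨?_, hcls⟩
      by_contra hno
      apply hx
      left
      refine ⟨hcls, ⟨h1, fun v => ?_⟩, hno⟩
      obtain ⟨p, hp, hpv⟩ := exists_prime v
      exact (h2 p hp).1 v hpv
  · intro x hx
    exact hreal x fun hxB => hx (Or.inr hxB)
  · intro p hp x hx hxP
    have hpF : Fact p.Prime := ⟨hp⟩
    by_cases h1 : ∀ v : HeightOneSpectrum (𝓞 K), (p : 𝓞 K) ∈ v.asIdeal →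
      HasPt (toC v) F (x : v.adicCompletion K)
    · have h2 : ¬ ((p : ℤ) ∣ b → padicNorm p (x - a) ≤ padicNorm p b) := by
        intro h3
        exact hxP ⟨h1, h3⟩
      obtain ⟨ε, hε, h4⟩ := cls_closed hb p x h2
      exact ⟨ε, hε, fun y hy hyP => h4 y hy hyP.2⟩
    · push Not at h1
      obtain ⟨v, hv, h1⟩ := h1
      obtain ⟨ε, hε, h4⟩ := comp_adic v F hF hv x h1
      exact ⟨ε, hε, fun y hy hyP => h4 y hy (hyP.1 v hv)⟩
  · intro p hpF _ hN hroot M' hM' hdvd _ n' m' hm'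
    obtain ⟨K0, hK⟩ := hnear p (hroot h (by simp)) M' hM' hdvd n' m' hm'
    refine ⟨K0, fun k hk => ⟨fun v hv => ?_, fun hd => ?_⟩⟩
    · obtain ⟨j, hj⟩ := exists_j v hv
      obtain ⟨ρ, hρ⟩ := hf ℚ_[p] (v.adicCompletion K) (hsplit p (hroot h' (by simp))) j (toC v)
      have h5 := (hK k hk ρ).map j
      rw [hρ, map_ratCast] at h5
      exact h5
    · exfalso
      have h1 := Nat.le_of_dvd (Int.natAbs_pos.2 hb.ne') (Int.natCast_dvd.1 hd)
      omega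

/-- The set is determined by finitely many nice conditions on a residue class. -/
def Det (Q : Set ℕ) (A : Set ℚ) : Prop := ∀ a1 b1 : ℤ, 0 < b1 →
    ∃ (a0 b0 : ℤ), 0 < b0 ∧ b1 ∣ b0 ∧ b1 ∣ a0 - a1 ∧ ∃ (r : ℕ) (S : Fin r → Set ℚ),
      (∀ i, Nice Q (S i)) ∧ ∀ x y : ℚ, x ∈ Cls a0 b0 → y ∈ Cls a0 b0 →
        (∀ i, (x ∈ S i ↔ y ∈ S i)) → (x ∈ A ↔ y ∈ A)

theorem Det.of_nice {Q : Set ℕ} {A : Set ℚ} (h : Nice Q A) : Det Q A := by
  intro a1 b1 hb1
  exact ⟨a1, b1, hb1, dvd_rfl, by simp, 1, fun _ => A, fun _ => h, fun x y _ _ h => h 0⟩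

theorem Det.family {Q : Set ℕ} {n r : ℕ} (F : Fin r → MvPolynomial (Fin n) K[X]) (hF : Homog F)
    (h : ∀ a b : ℤ, 0 < b → ∃ a' b' : ℤ, 0 < b' ∧ b ∣ b' ∧ b ∣ a' - a ∧
      {x : ℚ | x ∈ Cls a' b' ∧ LocSol F x ∧ ¬ HasPt (RingHom.id K) F (x : K)}.Finite) :
    Det Q {x : ℚ | HasPt (RingHom.id K) F (x : K)} := by
  intro a1 b1 hb1
  obtain ⟨a0, b0, hb0, h1, h2, hfin⟩ := h a1 b1 hb1
  refine ⟨a0, b0, hb0, h1, h2, 1, fun _ => {x : ℚ | HasPt (RingHom.id K) F (x : K)} ∩ Cls a0 b0,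
    fun _ => nice_family Q F hF a0 b0 hb0 hfin, fun x y hx hy hxy => ?_⟩
  have h3 := hxy 0
  simp only [Set.mem_inter_iff, hx, hy, and_true] at h3
  exact h3

theorem Det.compl {Q : Set ℕ} {A : Set ℚ} (h : Det Q A) : Det Q Aᶜ := by
  intro a1 b1 hb1
  obtain ⟨a0, b0, hb0, h1, h2, r, S, hS, h3⟩ := h a1 b1 hb1
  exact ⟨a0, b0, hb0, h1, h2, r, S, hS, fun x y hx hy h => not_congr (h3 x y hx hy h)⟩

theorem Det.inter {Q : Set ℕ} {A B : Set ℚ} (hA : Det Q A) (hB : Det Q B) : Det Q (A ∩ B) := by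
  intro a1 b1 hb1
  obtain ⟨a0, b0, hb0, h1, h2, r, S, hS, h3⟩ := hA a1 b1 hb1
  obtain ⟨a0', b0', hb0', h1', h2', r', S', hS', h3'⟩ := hB a0 b0 hb0
  have hsub := Cls_mono hb0' h1' h2'
  refine ⟨a0', b0', hb0', h1.trans h1', ?_, r + r', Fin.append S S', fun i => ?_,
    fun x y hx hy h => ?_⟩
  · have : a0' - a1 = (a0' - a0) + (a0 - a1) := by ring
    rw [this]
    exact dvd_add (h1.trans h2') h2
  · refine Fin.addCases (fun i => ?_) (fun i => ?_) i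
    · rw [Fin.append_left]; exact hS i
    · rw [Fin.append_right]; exact hS' i
  · refine and_congr (h3 x y (hsub hx) (hsub hy) fun i => ?_) (h3' x y hx hy fun i => ?_)
    · have := h (Fin.castAdd r' i)
      rwa [Fin.append_left] at this
    · have := h (Fin.natAdd r i)
      rwa [Fin.append_right] at this

/-- A determined set all of whose elements are integers is nowhere dense in the profinite
topology. -/
theorem main (Q : Set ℕ) (hQ : Rich Q) (A : Set ℚ) (hA : Det Q A)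
    (hAZ : A ⊆ Set.range fun n : ℤ => (n : ℚ)) (a1 b1 : ℤ) (hb1 : 0 < b1) :
    ∃ a b : ℤ, 0 < b ∧ b1 ∣ b ∧ b1 ∣ a - a1 ∧ ∀ n : ℤ, b ∣ n - a → (n : ℚ) ∉ A := by
  by_contra hcon
  push Not at hcon
  obtain ⟨a0, b0, hb0, h1, h2, r, S, hS, hdet⟩ := hA a1 b1 hb1
  obtain ⟨x, hx, y, ⟨hyA, hyC⟩, hyx⟩ := core Q hQ (r + 1) (Fin.cons (Cls a0 b0) S)
    (fun i => by
      refine Fin.cases ?_ (fun i => ?_) i
      · rw [Fin.cons_zero]; exact nice_cls Q a0 b0 hb0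
      · rw [Fin.cons_succ]; exact hS i)
    {v | ∃ y, (y ∈ A ∧ y ∈ Cls a0 b0) ∧
      (fun i => y ∈ (Fin.cons (Cls a0 b0) S : Fin (r + 1) → Set ℚ) i) = v} a0 b0 hb0
    (fun a b hb h3 h4 => by
      obtain ⟨n, hn1, hn2⟩ := hcon a b hb (h1.trans h3) (by
        have : a - a1 = (a - a0) + (a0 - a1) := by ring
        rw [this]
        exact dvd_add (h1.trans h4) h2)
      refine ⟨n, hn1, n, ⟨hn2, int_mem_Cls ?_⟩, rfl⟩
      have : n - a0 = (n - a) + (a - a0) := by ring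
      rw [this]
      exact dvd_add (h3.trans hn1) h4)
  have hiff : ∀ i, (y ∈ (Fin.cons (Cls a0 b0) S : Fin (r + 1) → Set ℚ) i ↔
      x ∈ (Fin.cons (Cls a0 b0) S : Fin (r + 1) → Set ℚ) i) := fun i =>
    (congrFun hyx i).to_iff
  have hxC : x ∈ Cls a0 b0 := by
    have := hiff 0
    rw [Fin.cons_zero] at this
    exact this.1 hyC
  have hxA : x ∈ A := (hdet x y hxC hyC fun i => by
    have := hiff i.succ
    rw [Fin.cons_succ] at this
    exact this.symm).2 hyA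
  obtain ⟨l, hl⟩ := hAZ hxA
  exact hx l hl.symm

end Pool.Agent.V7H20.PK
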