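import Mathlib

/-!
# The embedding of `ℚ_p` in a complete normed field
-/

set_option autoImplicit false

namespace Pool.Agent.V7H20.PK

open Filter Topology

section

variable {k : Type} [NormedField k] [CharZero k] (p : ℕ) [hpF : Fact p.Prime]

theorem norm_int_le (h1 : ∀ n : ℕ, ‖(n : k)‖ ≤ 1) (n : ℤ) : ‖(n : k)‖ ≤ 1 := by
  rcases Int.eq_nat_or_neg n with ⟨m, rfl | rfl⟩
  · simpa using h1 m
  · simpa using h1 m

/-- integers prime to `p` have norm one -/
theorem norm_coprime (h1 : ∀ n : ℕ, ‖(n : k)‖ ≤ 1) (hp : ‖(p : k)‖ < 1) (b : ℕ)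
    (hb : Nat.Coprime b p) : ‖(b : k)‖ = 1 := by
  by_contra hne
  have hb1 : ‖(b : k)‖ < 1 := lt_of_le_of_ne (h1 b) hne
  obtain ⟨N1, hN1⟩ := exists_pow_lt_of_lt_one (show (0 : ℝ) < 1 / 2 by norm_num) hb1
  obtain ⟨N2, hN2⟩ := exists_pow_lt_of_lt_one (show (0 : ℝ) < 1 / 2 by norm_num) hp
  have hc : IsCoprime ((b : ℤ) ^ N1) ((p : ℤ) ^ N2) :=
    (Nat.isCoprime_iff_coprime.2 hb).pow
  obtain ⟨u, v, huv⟩ := hc
  have h2 : (u : k) * (b : k) ^ N1 + (v : k) * (p : k) ^ N2 = 1 := by exact_mod_cast huv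
  have h3 : ‖(1 : k)‖ ≤ ‖(u : k) * (b : k) ^ N1‖ + ‖(v : k) * (p : k) ^ N2‖ := by
    rw [← h2]; exact norm_add_le _ _
  rw [norm_one, norm_mul, norm_mul, norm_pow, norm_pow] at h3
  have h4 := norm_int_le h1 u
  have h5 := norm_int_le h1 v
  have h6 : ‖(u : k)‖ * ‖(b : k)‖ ^ N1 ≤ 1 * ‖(b : k)‖ ^ N1 :=
    mul_le_mul_of_nonneg_right h4 (pow_nonneg (norm_nonneg _) _)
  have h7 : ‖(v : k)‖ * ‖(p : k)‖ ^ N2 ≤ 1 * ‖(p : k)‖ ^ N2 :=
    mul_le_mul_of_nonneg_right h5 (pow_nonneg (norm_nonneg _) _)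
  linarith

/-- comparison of the norms of rational numbers -/
theorem norm_rat_le (h1 : ∀ n : ℕ, ‖(n : k)‖ ≤ 1) (hp : ‖(p : k)‖ < 1) (x : ℚ) (N : ℕ)
    (hx : ‖(x : ℚ_[p])‖ ≤ ((p : ℝ) ^ N)⁻¹) : ‖(x : k)‖ ≤ ‖(p : k)‖ ^ N := by
  have hp0 : (p : ℚ) ≠ 0 := by exact_mod_cast hpF.out.ne_zero
  obtain ⟨y, hy⟩ : ∃ y : ℚ, y = x / (p : ℚ) ^ N := ⟨_, rfl⟩
  have hxy : x = (p : ℚ) ^ N * y := by rw [hy]; field_simp
  have hyn : ‖(y : ℚ_[p])‖ ≤ 1 := by
    have hp1 : (0 : ℝ) < (p : ℝ) ^ N := pow_pos (by exact_mod_cast hpF.out.pos) _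
    rw [hxy] at hx
    push_cast at hx
    rw [norm_mul, norm_pow, Padic.norm_p, inv_pow] at hx
    have h2 := mul_le_mul_of_nonneg_left hx hp1.le
    rwa [← mul_assoc, mul_inv_cancel₀ hp1.ne', one_mul] at h2
  have hden : Nat.Coprime y.den p := by
    rw [Nat.coprime_comm, Nat.Prime.coprime_iff_not_dvd hpF.out]
    intro hd
    have h3 : ‖(y.den : ℚ_[p])‖ < 1 := by
      have := (Padic.norm_natCast_lt_one_iff (p := p) (n := y.den)).2 hd
      exact this
    have h4 : ‖(y.num : ℚ_[p])‖ = 1 := by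
      by_contra hne
      have h5 : ‖(y.num : ℚ_[p])‖ < 1 := lt_of_le_of_ne (Padic.norm_int_le_one _) hne
      have h6 := (Padic.norm_intCast_lt_one_iff (p := p) (k := y.num)).1 h5
      have h7 : p ∣ y.num.natAbs := Int.natCast_dvd.1 h6
      have h8 := Nat.dvd_gcd h7 hd
      rw [y.reduced] at h8
      exact hpF.out.one_lt.ne' (Nat.dvd_one.1 h8)
    have h9 : (y : ℚ_[p]) * (y.den : ℚ_[p]) = (y.num : ℚ_[p]) := by
      have := Rat.mul_den_eq_num y
      exact_mod_cast this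
    have h10 := congrArg norm h9
    rw [norm_mul, h4] at h10
    have h11 : 0 ≤ ‖(y.den : ℚ_[p])‖ := norm_nonneg _
    nlinarith [norm_nonneg (y : ℚ_[p])]
  have h12 : ‖(y : k)‖ ≤ 1 := by
    have h9 : (y : k) * (y.den : k) = (y.num : k) := by
      have := Rat.mul_den_eq_num y
      exact_mod_cast this
    have h10 := congrArg norm h9
    rw [norm_mul, norm_coprime p h1 hp _ hden, mul_one] at h10
    rw [h10]
    exact norm_int_le h1 _
  rw [hxy]
  push_cast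
  rw [norm_mul, norm_pow]
  have h13 : 0 ≤ ‖(p : k)‖ ^ N := pow_nonneg (norm_nonneg _) _
  nlinarith

/-- The continuous embedding of `ℚ_p`. -/
theorem exists_emb [CompleteSpace k] (h1 : ∀ n : ℕ, ‖(n : k)‖ ≤ 1) (hp : ‖(p : k)‖ < 1) :
    ∃ j : ℚ_[p] →+* k, Continuous j := by
  set i : WithVal (Rat.padicValuation p) →+* ℚ_[p] := (Rat.castHom ℚ_[p]).comp
    (WithVal.equiv (Rat.padicValuation p) : WithVal (Rat.padicValuation p) →+* ℚ) with hi
  have hui : IsUniformInducing i := Padic.isUniformInducing_cast_withVal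
  have hdi : DenseRange i := (Padic.isDenseInducing_cast_withVal (p := p)).dense
  set f : WithVal (Rat.padicValuation p) →+* k := (Rat.castHom k).comp
    (WithVal.equiv (Rat.padicValuation p) : WithVal (Rat.padicValuation p) →+* ℚ) with hf
  have hic : Continuous i := hui.uniformContinuous.continuous
  have hc0 : ContinuousAt f 0 := by
    rw [ContinuousAt, map_zero, Metric.tendsto_nhds]
    intro ε hε
    obtain ⟨N, hN⟩ := exists_pow_lt_of_lt_one hε hp
    have hpos : (0 : ℝ) < ((p : ℝ) ^ N)⁻¹ :=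
      inv_pos.2 (pow_pos (by exact_mod_cast hpF.out.pos) _)
    have h2 : Tendsto i (𝓝 0) (𝓝 0) := by
      have := hic.tendsto 0
      rwa [map_zero] at this
    have h3 := (Metric.tendsto_nhds.1 h2) _ hpos
    filter_upwards [h3] with x hx
    rw [dist_zero_right] at hx ⊢
    exact (norm_rat_le p h1 hp _ N hx.le).trans_lt hN
  have huc : UniformContinuous f := uniformContinuous_of_continuousAt_zero f hc0
  refine ⟨IsDenseInducing.extendRingHom hui hdi huc, ?_⟩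
  exact (uniformContinuous_uniformly_extend hui hdi huc).continuous

end

end Pool.Agent.V7H20.PK
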