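import Pool.Agent.V7H20.PK.LocA
import Pool.Agent.V7H20.PK.Base

/-!
# Local compactness of the completions and closedness of the local conditions
-/

set_option autoImplicit false

namespace Pool.Agent.V7H20.PK

open Filter Topology Polynomial

/-- a completion of a number field above `p` is locally compact -/
theorem proper {K k : Type} [Field K] [NumberField K] [NormedField k] [CharZero k]
    [CompleteSpace k] (φ : K →+* k) (hd : DenseRange φ) (p : ℕ) [hpF : Fact p.Prime]
    (j : ℚ_[p] →+* k) (hj : Continuous j) (hp : ‖(p : k)‖ < 1) : ProperSpace k := by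
  let _ : Algebra ℚ_[p] k := j.toAlgebra
  have hcs : ContinuousSMul ℚ_[p] k := ⟨by
    have : (fun z : ℚ_[p] × k => z.1 • z.2) = fun z => j z.1 * z.2 := by
      funext z
      exact Algebra.smul_def _ _
    rw [this]
    exact (hj.comp continuous_fst).mul continuous_snd⟩
  set B := Module.finBasis ℚ K with hB
  set V : Submodule ℚ_[p] k := Submodule.span ℚ_[p] (Set.range fun i => φ (B i)) with hV
  have hVf : FiniteDimensional ℚ_[p] V :=
    FiniteDimensional.span_of_finite ℚ_[p] (Set.finite_range _)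
  have hVc : IsClosed (V : Set k) := V.closed_of_finiteDimensional
  have hKV : ∀ x : K, φ x ∈ V := by
    intro x
    rw [← B.sum_repr x, map_sum]
    refine Submodule.sum_mem _ fun i _ => ?_
    rw [Algebra.smul_def, map_mul]
    have h1 : φ (algebraMap ℚ K (B.repr x i)) = j (algebraMap ℚ ℚ_[p] (B.repr x i)) := by
      have h2 : φ.comp (algebraMap ℚ K) = j.comp (algebraMap ℚ ℚ_[p]) := Subsingleton.elim _ _
      exact congrArg (fun g : ℚ →+* k => g (B.repr x i)) h2
    rw [h1]
    have h3 : j (algebraMap ℚ ℚ_[p] (B.repr x i)) * φ (B i) =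
        (algebraMap ℚ ℚ_[p] (B.repr x i)) • φ (B i) := (Algebra.smul_def _ _).symm
    rw [h3]
    exact Submodule.smul_mem _ _ (Submodule.subset_span ⟨i, rfl⟩)
  have hVtop : V = ⊤ := by
    rw [eq_top_iff]
    intro x _
    have h4 : closure (Set.range φ) ⊆ (V : Set k) :=
      closure_minimal (by rintro _ ⟨y, rfl⟩; exact hKV y) hVc
    exact h4 (hd x)
  have hfin : FiniteDimensional ℚ_[p] k := by
    have : FiniteDimensional ℚ_[p] (⊤ : Submodule ℚ_[p] k) := hVtop ▸ hVf
    exact Module.Finite.of_surjective (⊤ : Submodule ℚ_[p] k).subtype fun x => ⟨⟨x, trivial⟩, rfl⟩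
  have e := ContinuousLinearEquiv.ofFinrankEq (𝕜 := ℚ_[p]) (E := k)
    (F := Fin (Module.finrank ℚ_[p] k) → ℚ_[p]) (by simp)
  have hlc : LocallyCompactSpace k := e.toHomeomorph.isClosedEmbedding.locallyCompactSpace
  have hp0 : (p : k) ≠ 0 := by exact_mod_cast hpF.out.ne_zero
  let _ : NontriviallyNormedField k := NontriviallyNormedField.ofNormNeOne
    ⟨(p : k), hp0, hp.ne⟩
  exact ProperSpace.of_locallyCompactSpace k

section

variable {K k : Type} [Field K] [NormedField k] (φ : K →+* k)

theorem vl_smul {n d : ℕ} (F : MvPolynomial (Fin n) K[X])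
    (hF : F.IsHomogeneous d) (x : k) (c : k) (y : Fin n → k) :
    MvPolynomial.eval₂ (ev φ x) (c • y) F = c ^ d * MvPolynomial.eval₂ (ev φ x) y F := by
  rw [MvPolynomial.eval₂_eq', MvPolynomial.eval₂_eq', Finset.mul_sum]
  refine Finset.sum_congr rfl fun m hm => ?_
  have h1 : m.degree = d := by
    rw [Finsupp.degree_eq_weight_one]
    exact hF (MvPolynomial.mem_support_iff.1 hm)
  have h2 : ∏ i, (c • y) i ^ m i = c ^ d * ∏ i, y i ^ m i := by
    simp only [Pi.smul_apply, smul_eq_mul, mul_pow, Finset.prod_mul_distrib]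
    rw [Finset.prod_pow_eq_pow_sum, ← h1, Finsupp.degree_eq_sum]
  rw [h2]
  ring

theorem continuous_vl {n : ℕ} (F : MvPolynomial (Fin n) K[X]) :
    Continuous fun z : k × (Fin n → k) => MvPolynomial.eval₂ (ev φ z.1) z.2 F := by
  simp only [MvPolynomial.eval₂_eq']
  refine continuous_finsetSum _ fun m _ => ?_
  refine Continuous.mul ?_ ?_
  · have h1 : (fun z : k × (Fin n → k) => ev φ z.1 (MvPolynomial.coeff m F)) =
        fun z => ((MvPolynomial.coeff m F).map φ).eval z.1 := by
      funext z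
      rw [ev_apply, eval_map]
    rw [h1]
    exact (Polynomial.continuous _).comp continuous_fst
  · refine continuous_finsetProd _ fun i _ => ?_
    exact ((continuous_apply i).comp continuous_snd).pow _

theorem hasPt_sphere {n r : ℕ} (F : Fin r → MvPolynomial (Fin n) K[X])
    (hF : Homog F) (x : k) : HasPt φ F x ↔
      ∃ y ∈ Metric.sphere (0 : Fin n → k) 1, ∀ j, MvPolynomial.eval₂ (ev φ x) y (F j) = 0 := by
  constructor
  · rintro ⟨y, hy, h⟩
    have hn : Nonempty (Fin n) := by
      by_contra hcon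
      apply hy
      funext i
      exact absurd ⟨i⟩ hcon
    obtain ⟨i, -, hi⟩ := Finset.exists_max_image Finset.univ (fun i => ‖y i‖)
      Finset.univ_nonempty
    have hyi : y i ≠ 0 := by
      intro h0
      apply hy
      funext l
      have := hi l (Finset.mem_univ l)
      rw [h0, norm_zero] at this
      exact norm_le_zero_iff.1 this
    refine ⟨(y i)⁻¹ • y, ?_, fun j => ?_⟩
    · rw [mem_sphere_zero_iff_norm, norm_smul, norm_inv]
      have : ‖y‖ = ‖y i‖ := by
        apply le_antisymm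
        · rw [pi_norm_le_iff_of_nonneg (norm_nonneg _)]
          exact fun l => hi l (Finset.mem_univ l)
        · exact norm_le_pi_norm y i
      rw [this]
      exact inv_mul_cancel₀ (norm_ne_zero_iff.2 hyi)
    · obtain ⟨d, hd⟩ := hF j
      rw [vl_smul _ _ hd, h j, mul_zero]
  · rintro ⟨y, hy, h⟩
    refine ⟨y, ?_, h⟩
    rintro rfl
    simp at hy

theorem isClosed_hasPt [ProperSpace k] {n r : ℕ}
    (F : Fin r → MvPolynomial (Fin n) K[X]) (hF : Homog F) :
    IsClosed {x : k | HasPt φ F x} := by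
  have hcomp : CompactSpace (Metric.sphere (0 : Fin n → k) 1) :=
    isCompact_iff_compactSpace.1 (isCompact_sphere _ _)
  have hset : {x : k | HasPt φ F x} =
      Prod.fst '' {z : k × Metric.sphere (0 : Fin n → k) 1 |
        ∀ j, MvPolynomial.eval₂ (ev φ z.1) (z.2 : Fin n → k) (F j) = 0} := by
    ext x
    rw [Set.mem_ofPred_eq, hasPt_sphere φ F hF]
    constructor
    · rintro ⟨y, hy, h⟩
      exact ⟨(x, ⟨y, hy⟩), h, rfl⟩
    · rintro ⟨⟨x', y⟩, h, rfl⟩
      exact ⟨y.1, y.2, h⟩
  rw [hset]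
  apply isClosedMap_fst_of_compactSpace
  rw [Set.ofPred_forall]
  refine isClosed_iInter fun j => ?_
  refine isClosed_eq ?_ continuous_const
  have h2 : Continuous fun z : k × Metric.sphere (0 : Fin n → k) 1 =>
      ((z.1, (z.2 : Fin n → k)) : k × (Fin n → k)) :=
    continuous_fst.prodMk (continuous_subtype_val.comp continuous_snd)
  exact (continuous_vl φ (F j)).comp h2

/-- the condition that there is no point is open in the `p`-adic topology of `ℚ` -/
theorem comp [CharZero k] [ProperSpace k] {n r : ℕ} (F : Fin r → MvPolynomial (Fin n) K[X])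
    (hF : Homog F) (p : ℕ) [Fact p.Prime] (j : ℚ_[p] →+* k) (hj : Continuous j) (x : ℚ)
    (hx : ¬ HasPt φ F (x : k)) : ∃ ε : ℚ, 0 < ε ∧ ∀ y : ℚ, padicNorm p (y - x) < ε →
      ¬ HasPt φ F (y : k) := by
  have hopen : IsOpen (j ⁻¹' {x : k | HasPt φ F x})ᶜ :=
    ((isClosed_hasPt φ F hF).preimage hj).isOpen_compl
  obtain ⟨ε, hε, hball⟩ := Metric.isOpen_iff.1 hopen (x : ℚ_[p]) (by
    change ¬ HasPt φ F (j (x : ℚ_[p]))
    rw [map_ratCast]
    exact hx)
  obtain ⟨δ, hδ, hδε⟩ := exists_rat_btwn hε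
  refine ⟨δ, by exact_mod_cast hδ, fun y hy hy2 => ?_⟩
  have h3 : (y : ℚ_[p]) ∈ Metric.ball (x : ℚ_[p]) ε := by
    rw [Metric.mem_ball, dist_eq_norm, ← Rat.cast_sub, Padic.eq_padicNorm]
    refine lt_trans ?_ hδε
    exact_mod_cast hy
  have h4 := hball h3
  apply h4
  change HasPt φ F (j (y : ℚ_[p]))
  rw [map_ratCast]
  exact hy2

end

end Pool.Agent.V7H20.PK
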