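import Pool.Agent.V7H20.PK.SplitK
import Pool.Agent.V7H20.PK.GenK

/-!
# Puiseux expansions and `p`-adic points near infinity
-/

set_option autoImplicit false

namespace Pool.Agent.V7H20.PK

open Polynomial
open Pool.Agent.TH766.HP (X_pow_dvd_of_map coe_eval rescale ift)

/-- the truncated expansion -/
theorem trunc_step {K E : Type} [Field K] [Field E] (α : K →+* E) (G : K[X][X])
    (σ : PowerSeries E)
    (h0 : (G.map (ev ((PowerSeries.C (R := E)).comp α) (PowerSeries.X : PowerSeries E))).eval σ = 0)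
    (h1 : (G.map (ev ((PowerSeries.C (R := E)).comp α)
      (PowerSeries.X : PowerSeries E))).derivative.eval σ ≠ 0) :
    ∃ (v : ℕ) (σ0 : E[X]), X ^ (2 * v + 1) ∣ (G.map (mapRingHom α)).eval σ0 ∧
      X ^ v ∣ (G.map (mapRingHom α)).derivative.eval σ0 ∧
      ((G.map (mapRingHom α)).derivative.eval σ0).coeff v ≠ 0 := by
  classical
  set EV := ev ((PowerSeries.C (R := E)).comp α) (PowerSeries.X : PowerSeries E) with hEV
  set d1 := (G.map EV).derivative.eval σ with hd1
  have hex : ∃ v, PowerSeries.coeff v d1 ≠ 0 := by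
    by_contra hcon
    push Not at hcon
    exact h1 (PowerSeries.ext fun n => by rw [hcon n, map_zero])
  set v := Nat.find hex with hv
  have hv1 : PowerSeries.coeff v d1 ≠ 0 := Nat.find_spec hex
  have hv2 : ∀ i < v, PowerSeries.coeff i d1 = 0 := fun i hi => by
    have := Nat.find_min hex hi
    simpa using this
  set N := 2 * v + 1 with hN
  have hcomp : (Polynomial.coeToPowerSeries.ringHom (R := E)).comp (mapRingHom α) = EV := by
    apply Polynomial.ringHom_ext
    · intro a
      simp [hEV, ev_C]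
    · rw [RingHom.comp_apply, hEV, ev_X]
      simp
  have hdvd : ∀ H : (PowerSeries E)[X], (PowerSeries.X : PowerSeries E) ^ N ∣
      H.eval σ - H.eval ((PowerSeries.trunc N σ : E[X]) : PowerSeries E) := by
    intro H
    refine dvd_trans ?_ (sub_dvd_eval_sub _ _ H)
    rw [PowerSeries.X_pow_dvd_iff]
    intro i hi
    rw [map_sub, Polynomial.coeff_coe, PowerSeries.coeff_trunc, if_pos hi, sub_self]
  refine ⟨v, PowerSeries.trunc N σ, ?_, ?_, ?_⟩
  · have h2 := hdvd (G.map EV)
    rw [h0, zero_sub, dvd_neg, ← hcomp, ← Polynomial.map_map, ← coe_eval] at h2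
    rw [X_pow_dvd_iff]
    intro i hi
    rw [PowerSeries.X_pow_dvd_iff] at h2
    have := h2 i hi
    rwa [Polynomial.coeff_coe] at this
  · have h2 := hdvd (G.map EV).derivative
    rw [← hd1, ← hcomp, derivative_map, ← Polynomial.map_map, ← coe_eval, ← derivative_map] at h2
    rw [X_pow_dvd_iff]
    intro i hi
    rw [PowerSeries.X_pow_dvd_iff] at h2
    have := h2 i (by omega)
    rw [map_sub, hv2 i hi, zero_sub, neg_eq_zero, Polynomial.coeff_coe] at this
    exact this
  · have h2 := hdvd (G.map EV).derivative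
    rw [← hd1, ← hcomp, derivative_map, ← Polynomial.map_map, ← coe_eval, ← derivative_map] at h2
    rw [PowerSeries.X_pow_dvd_iff] at h2
    have h3 := h2 v (by omega)
    rw [map_sub, Polynomial.coeff_coe, sub_eq_zero] at h3
    rw [← h3]
    exact hv1

theorem map_ev_eq {K L k : Type} [Field K] [Field L] [Field k] (G : K[X][X]) (β : K →+* L)
    (ι : L →+* k) (s : k) :
    ((G.map (mapRingHom β)).map (mapRingHom ι)).map (evalRingHom s) =
      G.map (ev (ι.comp β) s) := by
  rw [Polynomial.map_map, Polynomial.map_map]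
  congr 1
  apply Polynomial.ringHom_ext
  · intro a
    simp [ev_C]
  · simp [ev_X]

/-- Puiseux expansions at infinity, `p`-adically, for all embeddings of the number field `K` at
the primes at which a certain polynomial has a root. -/
theorem pui {K : Type} [Field K] [NumberField K] (g : K[X][X]) (hg : Sep g) :
    ∃ (M : ℕ) (h : ℤ[X]), M ≠ 0 ∧ 0 < h.natDegree ∧
    ∀ (p : ℕ) [Fact p.Prime], (∃ t : ℚ_[p], aeval t h = 0) → ∀ ρ : K →+* ℚ_[p],
      ∃ c : ℝ, ∀ z : ℚ_[p], c < ‖z‖ →
        ∃ t : ℚ_[p], (g.map (ev ρ (z ^ M))).eval t = 0 := by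
  obtain ⟨m, B, C0, G, σ, hm, hG, h0, h1⟩ :=
    series (algebraMap K (AlgebraicClosure K)) g hg
  obtain ⟨v, σ0, hv0, hv1, hv2⟩ := trunc_step _ G σ h0 h1
  obtain ⟨L, _, _, _, φ, σ1, hφ, hσ⟩ := exists_field K σ0
  obtain ⟨f, -, hf⟩ := ext_emb K L
  obtain ⟨h, hdeg, hh⟩ := split_prime f
  have hchar : CharZero L := charZero_of_injective_ringHom (algebraMap K L).injective
  refine ⟨m, h, hm.ne', hdeg, fun p _ hp ρ => ?_⟩
  obtain ⟨ι, hι⟩ := hf ℚ_[p] (hh p hp) ρ
  set GK := G.map (mapRingHom (algebraMap K L)) with hGK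
  have hmapφ : GK.map (mapRingHom φ) = G.map (mapRingHom (algebraMap K (AlgebraicClosure K))) := by
    rw [hGK, Polynomial.map_map, ← hφ]
    congr 1
    apply Polynomial.ringHom_ext
    · intro a
      simp
    · simp
  have hev : ∀ H : L[X][X], (H.eval σ1).map φ = (H.map (mapRingHom φ)).eval σ0 := by
    intro H
    have := Polynomial.eval₂_at_apply (p := H) (mapRingHom φ) σ1
    rw [← eval_map, coe_mapRingHom, hσ] at this
    exact this.symm
  have hv0' : X ^ (2 * v + 1) ∣ GK.eval σ1 := by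
    apply X_pow_dvd_of_map φ
    rw [hev, hmapφ]
    exact hv0
  have hv1' : X ^ v ∣ GK.derivative.eval σ1 := by
    apply X_pow_dvd_of_map φ
    rw [hev, ← derivative_map, hmapφ]
    exact hv1
  have hv2' : (GK.derivative.eval σ1).coeff v ≠ 0 := by
    intro hz
    apply hv2
    rw [← hmapφ, derivative_map, ← hev, coeff_map, hz, map_zero]
  obtain ⟨Ψ, hΨ, hΨ1, hΨ2⟩ := rescale GK v σ1 hv0' hv1' hv2'
  -- the `p`-adic polynomial
  set Ψp := Ψ.map (mapRingHom ι) with hΨp
  have hred : Ψp.map (evalRingHom 0) =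
      C (ι ((Ψ.coeff 1).coeff 0)) * X + C (ι ((Ψ.coeff 0).coeff 0)) := by
    ext j
    rw [coeff_map, hΨp, coeff_map]
    simp only [coe_mapRingHom, coe_evalRingHom, coeff_add, coeff_C_mul, coeff_X, coeff_C]
    rw [← coeff_zero_eq_eval_zero, coeff_map]
    rcases j with _ | _ | j
    · simp
    · simp
    · rw [hΨ2 _ (by omega)]
      simp
  set w := ι ((Ψ.coeff 1).coeff 0) with hw
  have hw0 : w ≠ 0 := by
    rw [hw, Ne, map_eq_zero]
    exact hΨ1
  set u := ι ((Ψ.coeff 0).coeff 0) with hu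
  obtain ⟨δ, hδ, hroot⟩ := ift Ψp (-(u / w))
    (by rw [hred]; simp; field_simp; ring)
    (by rw [hred]; simpa using hw0)
  refine ⟨max 1 (1 / δ), fun z hz => ?_⟩
  have hz1 : 0 < ‖z‖ := lt_trans (lt_of_lt_of_le one_pos (le_max_left _ _)) hz
  have hz0 : z ≠ 0 := norm_pos_iff.1 hz1
  set s := z⁻¹ with hs
  have hs0 : s ≠ 0 := inv_ne_zero hz0
  have hsδ : ‖s‖ < δ := by
    rw [hs, norm_inv]
    have : 1 / δ < ‖z‖ := lt_of_le_of_lt (le_max_right _ _) hz
    rw [inv_lt_comm₀ hz1 hδ, ← one_div]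
    exact this
  obtain ⟨t0, ht0⟩ := hroot s hsδ
  -- transport to `G`
  have hP := congrArg (fun P : L[X][X] => ((P.map (mapRingHom ι)).map (evalRingHom s)).eval t0) hΨ
  simp only [Polynomial.map_mul, eval_mul] at hP
  rw [ht0, mul_zero, map_comp, map_comp] at hP
  set t1 : ℚ_[p] := s ^ (v + 1) * t0 + (σ1.map ι).eval s with ht1
  have hG1 : (G.map (ev ρ s)).eval t1 = 0 := by
    rw [← hι, ← map_ev_eq G _ ι s, ← hP, ← hGK]
    rw [eval_comp]
    have h5 : ((taylor σ1 GK).map (mapRingHom ι)).map (evalRingHom s) =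
        taylor ((σ1.map ι).eval s) ((GK.map (mapRingHom ι)).map (evalRingHom s)) := by
      rw [taylor_apply, taylor_apply, map_comp, map_comp]
      simp
    rw [h5, taylor_eval]
    congr 1
    simp [ht1]
  rw [hG _ ρ s hs0, eval_mul, eval_C, eval_comp, eval_mul, eval_C, eval_X] at hG1
  have hG2 := (mul_eq_zero.1 hG1).resolve_left (pow_ne_zero _ hs0)
  have hsz : s⁻¹ = z := by rw [hs, inv_inv]
  rw [hsz] at hG2
  exact ⟨z ^ B * t1, hG2⟩

end Pool.Agent.V7H20.PK
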