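import Pool.Agent.V7H20.PK.GenK
import Pool.Agent.TH766.HP.T_REAL

/-!
# The conditions at the infinite places
-/

set_option autoImplicit false

namespace Pool.Agent.V7H20.PK

open Pool.Agent.H581R2 Polynomial
open Pool.Agent.TH766.HP.REAL (pf_aeval)

variable {K : Type} [Field K] [NumberField K]

/-- elements of the field as polynomials in a real number -/
theorem exists_theta (φ : K →+* ℝ) : ∃ w0 : ℝ, ∀ c : K, ∃ q : ℚ[X], φ c = aeval w0 q := by
  set pb := Field.powerBasisOfFiniteOfSeparable ℚ K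
  refine ⟨φ pb.gen, fun c => ?_⟩
  obtain ⟨q, hq⟩ := pb.exists_eq_aeval' c
  refine ⟨q, ?_⟩
  rw [hq]
  exact (aeval_algHom_apply φ.toRatAlgHom pb.gen q).symm

theorem pf_ev (φ : K →+* ℝ) {w0 : ℝ} (hw : ∀ c : K, ∃ q : ℚ[X], φ c = aeval w0 q) {ι : Type}
    {f g : (ι → ℝ) → ℝ} (hf : PF f) (hg : PF g) (a : K[X]) :
    ∃ h : (ι → ℝ) → ℝ, PF h ∧ ∀ v, g v = w0 → h v = ev φ (f v) a := by
  induction a using Polynomial.induction_on' with
  | add p q hp hq =>
    obtain ⟨h1, h1f, h1e⟩ := hp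
    obtain ⟨h2, h2f, h2e⟩ := hq
    exact ⟨fun v => h1 v + h2 v, h1f.add h2f, fun v hv => by beta_reduce; rw [h1e v hv, h2e v hv, map_add]⟩
  | monomial n c =>
    obtain ⟨q, hq⟩ := hw c
    refine ⟨fun v => aeval (g v) q * f v ^ n, (pf_aeval hg q).mul (hf.pow n), fun v hv => ?_⟩
    beta_reduce
    rw [ev_monomial, hq, hv]

theorem pf_eval₂ (φ : K →+* ℝ) {w0 : ℝ} (hw : ∀ c : K, ∃ q : ℚ[X], φ c = aeval w0 q) {ι : Type}
    {n : ℕ} {f g : (ι → ℝ) → ℝ} (hf : PF f) (hg : PF g) {y : (ι → ℝ) → Fin n → ℝ}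
    (hy : ∀ i, PF fun v => y v i) (G : MvPolynomial (Fin n) K[X]) :
    ∃ h : (ι → ℝ) → ℝ, PF h ∧ ∀ v, g v = w0 → h v = MvPolynomial.eval₂ (ev φ (f v)) (y v) G := by
  induction G using MvPolynomial.induction_on with
  | C a =>
    obtain ⟨h, hh, he⟩ := pf_ev φ hw hf hg a
    exact ⟨h, hh, fun v hv => by rw [he v hv, MvPolynomial.eval₂_C]⟩
  | add p q hp hq =>
    obtain ⟨h1, h1f, h1e⟩ := hp
    obtain ⟨h2, h2f, h2e⟩ := hq
    exact ⟨fun v => h1 v + h2 v, h1f.add h2f, fun v hv => by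
      beta_reduce
      rw [h1e v hv, h2e v hv, MvPolynomial.eval₂_add]⟩
  | mul_X p i hp =>
    obtain ⟨h1, h1f, h1e⟩ := hp
    exact ⟨fun v => h1 v * y v i, h1f.mul (hy i), fun v hv => by
      beta_reduce
      rw [h1e v hv, MvPolynomial.eval₂_mul, MvPolynomial.eval₂_X]⟩

/-- the fibres with a real point form the section of a semialgebraic set -/
theorem sap (φ : K →+* ℝ) {w0 : ℝ} (hw : ∀ c : K, ∃ q : ℚ[X], φ c = aeval w0 q) (n r : ℕ)
    (F : Fin r → MvPolynomial (Fin n) K[X]) :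
    ∃ P : (Bool → ℝ) → Prop, SAP P ∧ ∀ v, v false = w0 → (P v ↔ HasPt φ F (v true)) := by
  choose h hh he using fun j => pf_eval₂ φ hw
    (f := fun w : Bool ⊕ Fin n → ℝ => w (Sum.inl true))
    (g := fun w : Bool ⊕ Fin n → ℝ => w (Sum.inl false)) (PF.coord _) (PF.coord _)
    (y := fun w i => w (Sum.inr i)) (fun i => PF.coord _) (F j)
  have h1 : SAP (fun w : Bool ⊕ Fin n → ℝ =>
      (∃ i ∈ (Finset.univ : Finset (Fin n)), ¬ w (Sum.inr i) = 0) ∧
      ∀ j ∈ (Finset.univ : Finset (Fin r)), h j w = 0) := by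
    refine SAP.and (SAP.exists_mem _ fun i _ => SAP.not (SAP.eq_zero (PF.coord _)))
      (SAP.forall_mem _ fun j _ => SAP.eq_zero (hh j))
  refine ⟨_, SAP.exists_block n h1, fun v hv => ?_⟩
  simp only [Sum.elim_inr, Finset.mem_univ, true_and, forall_true_left]
  unfold HasPt
  refine exists_congr fun y => and_congr ?_ (forall_congr' fun j => ?_)
  · constructor
    · rintro ⟨i, hi⟩ h
      exact hi (by rw [h]; rfl)
    · intro h
      by_contra hcon
      push Not at hcon
      exact h (funext hcon)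
  · rw [he j _ (by simpa using hv)]
    simp

/-- signs of one polynomial near a point which is not a root -/
theorem sign_near (q : ℝ[X]) (x : ℝ) (hx : q.eval x ≠ 0) :
    ∃ ε : ℝ, 0 < ε ∧ ∀ y : ℝ, |y - x| < ε →
      SignType.sign (q.eval y) = SignType.sign (q.eval x) := by
  have hcont : Continuous fun y : ℝ => q.eval y := q.continuous
  rcases lt_or_gt_of_ne hx with h | h
  · have hev : ∀ᶠ y in nhds x, q.eval y < 0 :=
      hcont.continuousAt.eventually_lt continuousAt_const h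
    obtain ⟨ε, hε, h3⟩ := Metric.eventually_nhds_iff.1 hev
    exact ⟨ε, hε, fun y hy => by rw [sign_neg (h3 (by rwa [Real.dist_eq])), sign_neg h]⟩
  · have hev : ∀ᶠ y in nhds x, 0 < q.eval y :=
      continuousAt_const.eventually_lt hcont.continuousAt h
    obtain ⟨ε, hε, h3⟩ := Metric.eventually_nhds_iff.1 hev
    exact ⟨ε, hε, fun y hy => by rw [sign_pos (h3 (by rwa [Real.dist_eq])), sign_pos h]⟩

/-- the polynomial in one variable -/
noncomputable def uni (w0 : ℝ) (q : MvPolynomial Bool ℚ) : ℝ[X] :=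
  MvPolynomial.aeval (fun b : Bool => if b then (X : ℝ[X]) else C w0) q

theorem eval_uni (w0 : ℝ) (q : MvPolynomial Bool ℚ) (x : ℝ) :
    (uni w0 q).eval x = MvPolynomial.aeval (fun b : Bool => if b then x else w0) q := by
  unfold uni
  induction q using MvPolynomial.induction_on with
  | C a =>
    simp only [MvPolynomial.aeval_C]
    rw [Polynomial.algebraMap_apply]
    simp
  | add p q hp hq => simp only [map_add, eval_add, hp, hq]
  | mul_X p i hp =>
    simp only [map_mul, eval_mul, hp, MvPolynomial.aeval_X]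
    cases i <;> simp

/-- The real condition is locally constant off a finite set. -/
theorem real (φ : K →+* ℝ) {n r : ℕ} (F : Fin r → MvPolynomial (Fin n) K[X]) :
    ∃ B : Set ℚ, B.Finite ∧ ∀ x : ℚ, x ∉ B → ∃ ε : ℚ, 0 < ε ∧ ∀ y : ℚ, |y - x| < ε →
      (HasPt φ F (y : ℝ) ↔ HasPt φ F (x : ℝ)) := by
  classical
  obtain ⟨w0, hw⟩ := exists_theta φ
  obtain ⟨P, hP, hPF⟩ := sap φ hw n r F
  obtain ⟨Q, hQ⟩ := SA.iff hP
  refine ⟨⋃ q ∈ Q.filter (fun q => uni w0 q ≠ 0), {x : ℚ | (uni w0 q).eval (x : ℝ) = 0}, ?_, ?_⟩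
  · refine Set.Finite.biUnion (Finset.finite_toSet _) fun q hq => ?_
    have hq0 : uni w0 q ≠ 0 := (Finset.mem_filter.1 hq).2
    refine ((Polynomial.finite_setOfPred_isRoot hq0).preimage
      (f := fun x : ℚ => (x : ℝ)) (Rat.cast_injective.injOn)).subset fun x hx => hx
  · intro x hx
    have hx' : ∀ q ∈ Q, uni w0 q ≠ 0 → (uni w0 q).eval (x : ℝ) ≠ 0 := by
      intro q hq hq0 h
      apply hx
      simp only [Set.mem_iUnion]
      exact ⟨q, Finset.mem_filter.2 ⟨hq, hq0⟩, h⟩
    -- a common radius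
    have key : ∀ T : Finset (MvPolynomial Bool ℚ), (∀ q ∈ T, q ∈ Q) → ∃ ε : ℝ, 0 < ε ∧
        ∀ q ∈ T, ∀ y : ℝ, |y - x| < ε → SignType.sign ((uni w0 q).eval y) =
          SignType.sign ((uni w0 q).eval (x : ℝ)) := by
      intro T
      induction T using Finset.induction_on with
      | empty => intro _; exact ⟨1, one_pos, fun q hq => absurd hq (by simp)⟩
      | insert q T _ ih =>
        intro hT
        obtain ⟨ε1, h1, h2⟩ := ih fun p hp => hT p (Finset.mem_insert_of_mem hp)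
        obtain ⟨ε2, h3, h4⟩ : ∃ ε : ℝ, 0 < ε ∧ ∀ y : ℝ, |y - x| < ε →
            SignType.sign ((uni w0 q).eval y) =
              SignType.sign ((uni w0 q).eval (x : ℝ)) := by
          by_cases h0 : uni w0 q = 0
          · exact ⟨1, one_pos, fun y _ => by rw [h0, eval_zero, eval_zero]⟩
          · exact sign_near _ x (hx' q (hT q (Finset.mem_insert_self _ _)) h0)
        refine ⟨min ε1 ε2, lt_min h1 h3, fun p hp y hy => ?_⟩
        rcases Finset.mem_insert.1 hp with rfl | hp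
        · exact h4 y (hy.trans_le (min_le_right _ _))
        · exact h2 p hp y (hy.trans_le (min_le_left _ _))
    obtain ⟨ε, hε, h⟩ := key Q fun q hq => hq
    obtain ⟨δ, hδ1, hδ2⟩ := exists_rat_btwn hε
    refine ⟨δ, by exact_mod_cast hδ1, fun y hy => ?_⟩
    have hy' : |(y : ℝ) - x| < ε := by
      have : |(y : ℝ) - x| < δ := by exact_mod_cast hy
      exact this.trans hδ2
    have h5 := hQ (fun b : Bool => if b then (y : ℝ) else w0)
      (fun b : Bool => if b then (x : ℝ) else w0) fun q hq => by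
        rw [← eval_uni, ← eval_uni]
        exact h q hq y hy'
    have h6 := hPF (fun b : Bool => if b then (y : ℝ) else w0) (by simp)
    have h7 := hPF (fun b : Bool => if b then (x : ℝ) else w0) (by simp)
    simp only [if_true] at h6 h7
    rw [← h6, ← h7]
    exact h5

end Pool.Agent.V7H20.PK
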