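import Pool.Agent.V7H20.PK.ClearK
import Pool.Agent.Helper165.P1.NP

/-!
# Puiseux expansions at infinity
-/

set_option autoImplicit false

namespace Pool.Agent.V7H20.PK

open Polynomial Pool.Agent.Helper165.P1

variable {K E : Type} [Field K] [Field E]

theorem single_pow' (a : ℤ) (n : ℕ) :
    (HahnSeries.single a (1 : E)) ^ n = HahnSeries.single ((n : ℤ) * a) (1 : E) := by
  rw [HahnSeries.single_pow, one_pow, nsmul_eq_mul]

theorem single_ne (a : ℤ) : HahnSeries.single a (1 : E) ≠ (0 : NP.LS E) :=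
  HahnSeries.single_ne_zero one_ne_zero

theorem single_inv' : (HahnSeries.single (1 : ℤ) (1 : E) : NP.LS E)⁻¹ =
    HahnSeries.single (-1) 1 := by
  rw [inv_eq_one_div, div_eq_iff (single_ne 1), HahnSeries.single_mul_single]
  norm_num

/-- the constants -/
noncomputable def cst (α : K →+* E) : K →+* NP.LS E := (HahnSeries.C : E →+* NP.LS E).comp α

/-- `ev` at a negative power of the variable is injective -/
theorem ev_single_injective (α : K →+* E) (m : ℕ) (hm : 0 < m) :
    Function.Injective (ev (cst α) (HahnSeries.single (-(m : ℤ)) (1 : E) : NP.LS E)) := by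
  rw [injective_iff_map_eq_zero]
  intro c hc
  by_contra hne
  obtain ⟨N, hN⟩ : ∃ N, N = c.natDegree := ⟨_, rfl⟩
  have hlc : α (c.coeff N) ≠ 0 := by
    rw [Ne, map_eq_zero, hN]
    exact leadingCoeff_ne_zero.2 hne
  have hsum := c.as_sum_range_C_mul_X_pow
  rw [← hN] at hsum
  rw [hsum, map_sum] at hc
  have h1 := congrArg (fun z : NP.LS E => z.coeff ((N : ℤ) * -(m : ℤ))) hc
  simp only [HahnSeries.coeff_zero] at h1
  have h2 : ∀ i, ev (cst α) (HahnSeries.single (-(m : ℤ)) (1 : E) : NP.LS E)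
      (C (c.coeff i) * X ^ i) =
      HahnSeries.single ((i : ℤ) * -(m : ℤ)) (α (c.coeff i)) := by
    intro i
    rw [map_mul, map_pow, ev_X, single_pow', ev_C, cst, RingHom.comp_apply, HahnSeries.C_apply,
      HahnSeries.single_mul_single, zero_add, mul_one]
  simp only [h2] at h1
  rw [HahnSeries.coeff_sum, Finset.sum_eq_single N] at h1
  · rw [HahnSeries.coeff_single_same] at h1
    exact hlc h1
  · intro i _ hi
    rw [HahnSeries.coeff_single_of_ne]
    intro h4
    have h5 : (m : ℤ) * (N : ℤ) = m * i := by linarith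
    have h6 : (m : ℤ) ≠ 0 := by exact_mod_cast hm.ne'
    have h7 := mul_left_cancel₀ h6 h5
    exact hi (by exact_mod_cast h7.symm)
  · intro h
    exact absurd (Finset.mem_range.2 (Nat.lt_succ_self _)) h

/-- Puiseux expansion of a separable algebraic function at infinity, normalised. -/
theorem series [IsAlgClosed E] [CharZero E] (α : K →+* E) (g : K[X][X]) (hg : Sep g) :
    ∃ (m B C : ℕ) (G : K[X][X]) (σ : PowerSeries E),
    0 < m ∧
    (∀ (k : Type) [Field k] (φ : K →+* k) (s : k), s ≠ 0 →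
      G.map (ev φ s) = Polynomial.C (s ^ C) *
        (g.map (ev φ ((s⁻¹) ^ m))).comp (Polynomial.C ((s⁻¹) ^ B) * X)) ∧
    (G.map (ev ((PowerSeries.C (R := E)).comp α) (PowerSeries.X : PowerSeries E))).eval σ = 0 ∧
    (G.map (ev ((PowerSeries.C (R := E)).comp α)
      (PowerSeries.X : PowerSeries E))).derivative.eval σ ≠ 0 := by
  obtain ⟨hdeg, a, b, D, hD, hab⟩ := hg
  obtain ⟨m, hm, hs⟩ := NP.NP_splits (E := E)
    (g.map (ev (cst α) (HahnSeries.single (-1 : ℤ) (1 : E) : NP.LS E)))
  have hcst : (NP.expandHom m hm).comp (cst α) = cst α := by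
    ext1 c
    rw [RingHom.comp_apply, cst, RingHom.comp_apply, HahnSeries.C_apply, NP.expandHom_single,
      mul_zero]
  rw [Polynomial.map_map, comp_ev, NP.expandHom_single, hcst] at hs
  have hm1 : (m : ℤ) * -1 = -(m : ℤ) := by ring
  rw [hm1] at hs
  set x : NP.LS E := HahnSeries.single (-(m : ℤ)) 1 with hx
  have hinj : Function.Injective (ev (cst α) x) := ev_single_injective α m hm
  have hdeg' : (g.map (ev (cst α) x)).natDegree = g.natDegree :=
    natDegree_map_eq_of_injective hinj g
  obtain ⟨τ, hτ⟩ := hs.exists_eval_eq_zero (by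
    intro h
    have h2 := natDegree_eq_of_degree_eq_some (n := 0) (by exact_mod_cast h)
    omega)
  have hτ' : (g.map (ev (cst α) x)).derivative.eval τ ≠ 0 := by
    intro h0
    have h1 := congrArg (fun P : K[X][X] => (P.map (ev (cst α) x)).eval τ) hab
    simp only [Polynomial.map_add, Polynomial.map_mul, eval_add, eval_mul, hτ, mul_zero,
      zero_add, map_C, eval_C] at h1
    rw [derivative_map] at h0
    rw [h0, mul_zero] at h1
    exact hD (hinj (by rw [← h1, map_zero]))
  -- normalisation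
  set B : ℕ := (-τ.order).toNat with hB
  set s : NP.LS E := HahnSeries.single 1 1 with hs1
  have hs0 : s ≠ 0 := single_ne 1
  obtain ⟨σ, hσ⟩ : ∃ σ : PowerSeries E, HahnSeries.ofPowerSeries ℤ E σ = s ^ B * τ := by
    refine ⟨PowerSeries.X ^ (τ.order + B).toNat * LaurentSeries.powerSeriesPart τ, ?_⟩
    have h1 := LaurentSeries.single_order_mul_powerSeriesPart τ
    rw [map_mul, HahnSeries.ofPowerSeries_X_pow]
    conv_rhs => rw [← h1]
    rw [hs1, single_pow', ← mul_assoc]
    congr 1
    have h2 : 0 ≤ τ.order + B := by omega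
    have h3 : (((τ.order + B).toNat : ℕ) : ℤ) = (B : ℤ) * 1 + τ.order := by
      rw [Int.toNat_of_nonneg h2]
      ring
    rw [HahnSeries.single_mul_single, h3, one_mul (1 : E)]
  obtain ⟨C0, hC0⟩ := clear_den m B g
  obtain ⟨G, hG⟩ := hC0 C0 le_rfl
  have hsinv : s⁻¹ ^ m = x := by
    have h2 : (m : ℤ) * -1 = -(m : ℤ) := hm1
    rw [hs1, single_inv', single_pow', hx, h2]
  have hGs := hG (NP.LS E) (cst α) s hs0
  rw [hsinv] at hGs
  have hcomp : (HahnSeries.ofPowerSeries ℤ E).comp
      (ev ((PowerSeries.C (R := E)).comp α) (PowerSeries.X : PowerSeries E)) =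
      ev (cst α) s := by
    rw [comp_ev]
    congr 1
    · ext1 c
      rw [RingHom.comp_apply, RingHom.comp_apply, cst, RingHom.comp_apply,
        HahnSeries.ofPowerSeries_C]
    · exact HahnSeries.ofPowerSeries_X
  have hinjPS : Function.Injective (HahnSeries.ofPowerSeries ℤ E) :=
    HahnSeries.ofPowerSeries_injective
  have hcancel : (s⁻¹) ^ B * (s ^ B * τ) = τ := by
    rw [← mul_assoc, ← mul_pow, inv_mul_cancel₀ hs0, one_pow, one_mul]
  refine ⟨m, B, C0, G, σ, hm, hG, ?_, ?_⟩
  · apply hinjPS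
    rw [map_zero, ← Polynomial.eval₂_at_apply, ← Polynomial.eval_map, Polynomial.map_map, hcomp,
      hGs, hσ, eval_mul, eval_C, eval_comp, eval_mul, eval_C, eval_X, hcancel, hτ, mul_zero]
  · intro h0
    have h1 := congrArg (HahnSeries.ofPowerSeries ℤ E) h0
    rw [map_zero, ← Polynomial.eval₂_at_apply, ← Polynomial.eval_map, ← derivative_map,
      Polynomial.map_map, hcomp,
      hGs, hσ, derivative_C_mul, derivative_comp, eval_mul, eval_C, eval_mul, eval_comp, eval_mul,
      eval_C, eval_X, hcancel, derivative_C_mul, derivative_X, mul_one, eval_C] at h1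
    have h2 : (s⁻¹) ^ B ≠ 0 := pow_ne_zero _ (inv_ne_zero hs0)
    exact (mul_ne_zero (pow_ne_zero _ hs0) (mul_ne_zero h2 hτ')) h1

end Pool.Agent.V7H20.PK
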