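import Pool.Agent.V7H20.PK.SeriesK
import Pool.Agent.TH766.HP.Pui

/-!
# Embeddings of number fields into `p`-adic fields
-/

set_option autoImplicit false

namespace Pool.Agent.V7H20.PK

open Polynomial

/-- an integer polynomial whose roots in `ℚ_p` make `f` split -/
theorem split_prime (f : ℚ[X]) : ∃ h : ℤ[X], 0 < h.natDegree ∧
    ∀ (p : ℕ) [Fact p.Prime], (∃ t : ℚ_[p], aeval t h = 0) →
      (f.map (algebraMap ℚ ℚ_[p])).Splits := by
  classical
  set N := f.SplittingField with hN
  set pb := Field.powerBasisOfFiniteOfSeparable ℚ N with hpb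
  set g := minpoly ℚ pb.gen with hg
  have hint : IsIntegral ℚ pb.gen := pb.isIntegral_gen
  obtain ⟨b, hb, hmap⟩ := IsLocalization.integerNormalization_spec (nonZeroDivisors ℤ) g
  have hb0 : b ≠ 0 := nonZeroDivisors.ne_zero hb
  set h := IsLocalization.integerNormalization (nonZeroDivisors ℤ) g with hh
  have hdeg : h.natDegree = g.natDegree := by
    have h1 : (h.map (algebraMap ℤ ℚ)).natDegree = h.natDegree :=
      natDegree_map_eq_of_injective (algebraMap ℤ ℚ).injective_int h
    rw [← h1, hmap]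
    have h2 : b • g = C (b : ℚ) * g := by
      rw [zsmul_eq_mul]
      simp
    rw [h2, natDegree_C_mul (by exact_mod_cast hb0)]
  refine ⟨h, by rw [hdeg]; exact minpoly.natDegree_pos hint, ?_⟩
  intro p _ ⟨t, ht⟩
  have h3 : aeval t g = 0 := by
    have h4 : aeval t (h.map (algebraMap ℤ ℚ)) = 0 := by
      rw [aeval_map_algebraMap]
      exact ht
    rw [hmap] at h4
    have h2 : b • g = C (b : ℚ) * g := by
      rw [zsmul_eq_mul]
      simp
    rw [h2, map_mul, aeval_C, mul_eq_zero] at h4
    rcases h4 with h4 | h4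
    · exfalso
      rw [map_eq_zero] at h4
      exact hb0 (by exact_mod_cast h4)
    · exact h4
  obtain ⟨ψ, -⟩ : ∃ ψ : f.SplittingField →+* ℚ_[p], ψ = (pb.lift t h3 : N →ₐ[ℚ] ℚ_[p]).toRingHom :=
    ⟨_, rfl⟩
  have h5 := (SplittingField.splits f).map ψ
  rw [Polynomial.map_map] at h5
  have h6 : ψ.comp (algebraMap ℚ f.SplittingField) = algebraMap ℚ ℚ_[p] := Subsingleton.elim _ _
  exact h6 ▸ h5

/-- embeddings extend to a finite extension if some polynomial splits -/
theorem ext_emb (K L : Type) [Field K] [NumberField K] [Field L] [Algebra K L]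
    [FiniteDimensional K L] : ∃ f : ℚ[X], f ≠ 0 ∧ ∀ (k : Type) [Field k] [CharZero k],
      (f.map (algebraMap ℚ k)).Splits → ∀ σ : K →+* k, ∃ τ : L →+* k,
        τ.comp (algebraMap K L) = σ := by
  have hc : CharZero L := charZero_of_injective_ringHom (algebraMap K L).injective
  have hfin : FiniteDimensional ℚ L := FiniteDimensional.trans ℚ K L
  set pb := Field.powerBasisOfFiniteOfSeparable K L with hpb
  have hint : IsIntegral ℚ pb.gen := IsIntegral.of_finite ℚ _
  refine ⟨minpoly ℚ pb.gen, minpoly.ne_zero hint, fun k _ _ hs σ => ?_⟩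
  have h1 : minpoly K pb.gen ∣ (minpoly ℚ pb.gen).map (algebraMap ℚ K) :=
    minpoly.dvd_map_of_isScalarTower ℚ K pb.gen
  have h2 : (minpoly K pb.gen).map σ ∣ (minpoly ℚ pb.gen).map (algebraMap ℚ k) := by
    have h3 := Polynomial.map_dvd σ h1
    rw [Polynomial.map_map] at h3
    have h4 : σ.comp (algebraMap ℚ K) = algebraMap ℚ k := Subsingleton.elim _ _
    rwa [h4] at h3
  have h5 : ((minpoly K pb.gen).map σ).Splits :=
    hs.of_dvd (Polynomial.map_ne_zero (minpoly.ne_zero hint)) h2
  obtain ⟨t, ht⟩ := h5.exists_eval_eq_zero (by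
    rw [degree_map]
    exact (minpoly.degree_pos pb.isIntegral_gen).ne')
  let _ := σ.toAlgebra
  have h6 : aeval t (minpoly K pb.gen) = 0 := by
    rw [aeval_def, ← eval_map]
    exact ht
  refine ⟨(pb.lift t h6 : L →ₐ[K] k).toRingHom, ?_⟩
  ext1 x
  exact (pb.lift t h6).commutes x

/-- a field embedded in a field where the polynomial splits -/
theorem factor_emb (K : Type) [Field K] [NumberField K] : ∃ f : ℚ[X], f ≠ 0 ∧
    ∀ (k k' : Type) [Field k] [CharZero k] [Field k'],
      (f.map (algebraMap ℚ k)).Splits → ∀ (j : k →+* k') (ρ : K →+* k'), ∃ σ : K →+* k,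
        j.comp σ = ρ := by
  set pb := Field.powerBasisOfFiniteOfSeparable ℚ K with hpb
  have hint : IsIntegral ℚ pb.gen := IsIntegral.of_finite ℚ _
  refine ⟨minpoly ℚ pb.gen, minpoly.ne_zero hint, fun k k' _ _ _ hs j ρ => ?_⟩
  have hc : CharZero k' := charZero_of_injective_ringHom j.injective
  have h1 : IsRoot (((minpoly ℚ pb.gen).map (algebraMap ℚ k)).map j) (ρ pb.gen) := by
    rw [Polynomial.map_map]
    have h4 : j.comp (algebraMap ℚ k) = ρ.comp (algebraMap ℚ K) := Subsingleton.elim _ _
    rw [h4, ← Polynomial.map_map, IsRoot, eval_map, Polynomial.eval₂_at_apply, eval_map,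
      ← aeval_def, minpoly.aeval, map_zero]
  have h2 : ((minpoly ℚ pb.gen).map (algebraMap ℚ k)) ≠ 0 :=
    Polynomial.map_ne_zero (minpoly.ne_zero hint)
  obtain ⟨t, ht⟩ := hs.mem_range_of_isRoot h2 h1
  have h3 : aeval t (minpoly ℚ pb.gen) = 0 := by
    rw [Polynomial.map_map] at h1
    have h5 : j (aeval t (minpoly ℚ pb.gen)) = 0 := by
      have h6 : IsRoot ((minpoly ℚ pb.gen).map (j.comp (algebraMap ℚ k))) (j t) := by
        rw [ht]; exact h1
      rw [IsRoot, ← Polynomial.map_map, eval_map, Polynomial.eval₂_at_apply, eval_map,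
        ← aeval_def] at h6
      exact h6
    exact (map_eq_zero j).1 h5
  refine ⟨(pb.lift t h3 : K →ₐ[ℚ] k).toRingHom, ?_⟩
  have h7 : (j.comp (pb.lift t h3 : K →ₐ[ℚ] k).toRingHom).toRatAlgHom = ρ.toRatAlgHom := by
    apply pb.algHom_ext
    change j ((pb.lift t h3) pb.gen) = ρ pb.gen
    rw [pb.lift_gen, ht]
  ext1 x
  exact congrArg (fun g : K →ₐ[ℚ] k' => g x) h7

/-- coefficients of a polynomial over an algebraic closure -/
theorem exists_field (K : Type) [Field K] [NumberField K] (σ0 : (AlgebraicClosure K)[X]) :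
    ∃ (L : Type) (_ : Field L) (_ : Algebra K L) (_ : FiniteDimensional K L)
      (φ : L →+* AlgebraicClosure K) (σ1 : L[X]),
      φ.comp (algebraMap K L) = algebraMap K (AlgebraicClosure K) ∧ σ1.map φ = σ0 := by
  classical
  set S : Set (AlgebraicClosure K) := (σ0.coeffs : Set (AlgebraicClosure K)) with hS
  have hfin : FiniteDimensional K (IntermediateField.adjoin K S) := by
    apply IntermediateField.finiteDimensional_adjoin
    intro x _
    exact Algebra.IsIntegral.isIntegral x
  have hlift : σ0 ∈ Polynomial.lifts (algebraMap (IntermediateField.adjoin K S)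
      (AlgebraicClosure K)) := by
    rw [Polynomial.lifts_iff_coeff_lifts]
    intro n
    by_cases hn : σ0.coeff n = 0
    · rw [hn]
      exact ⟨0, map_zero _⟩
    · have h1 : σ0.coeff n ∈ S := by
        rw [hS, Finset.mem_coe]
        exact Polynomial.coeff_mem_coeffs hn
      exact ⟨⟨σ0.coeff n, IntermediateField.subset_adjoin K S h1⟩, rfl⟩
  obtain ⟨σ1, hσ1⟩ := hlift
  exact ⟨IntermediateField.adjoin K S, inferInstance, inferInstance, hfin,
    algebraMap (IntermediateField.adjoin K S) (AlgebraicClosure K), σ1, rfl, hσ1⟩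

end Pool.Agent.V7H20.PK
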